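import Pool.Agent.Q209.DJ.Top

set_option autoImplicit false

/-! Coding of measurable functions by continuous functions. -/

namespace Q209.DJ

open Set MeasureTheory Filter Topology
open scoped ENNReal

variable {a b : ℝ}

instance (a b : ℝ) : MeasurableSpace C(Icc a b, ℝ) := borel _
instance (a b : ℝ) : BorelSpace C(Icc a b, ℝ) := ⟨rfl⟩

/-- extension of a continuous function on `[a, b]` by constants -/
noncomputable def ex (hab : a ≤ b) (g : C(Icc a b, ℝ)) : ℝ → ℝ := IccExtend hab g

theorem continuous_ex (hab : a ≤ b) :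
    Continuous (fun p : C(Icc a b, ℝ) × ℝ => ex hab p.1 p.2) := by
  have : (fun p : C(Icc a b, ℝ) × ℝ => ex hab p.1 p.2) =
      (fun q : C(Icc a b, ℝ) × Icc a b => q.1 q.2) ∘
        (fun p : C(Icc a b, ℝ) × ℝ => (p.1, projIcc a b hab p.2)) := rfl
  rw [this]
  exact ContinuousEval.continuous_eval.comp
    (continuous_fst.prodMk (continuous_projIcc.comp continuous_snd))

theorem continuous_ex_right (hab : a ≤ b) (g : C(Icc a b, ℝ)) : Continuous (ex hab g) :=
  g.continuous.comp continuous_projIcc

theorem ex_of_mem (hab : a ≤ b) (g : C(Icc a b, ℝ)) {x : ℝ} (hx : x ∈ Icc a b) :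
    ex hab g x = g ⟨x, hx⟩ := IccExtend_of_mem hab g hx

/-- the function coded by `Φ` -/
noncomputable def val (hab : a ≤ b) (Φ : C(Icc a b, ℝ)) (x : ℝ) : ℝ :=
  Real.tan (deriv (ex hab Φ) x)

theorem measurable_tan : Measurable Real.tan := by
  have : Real.tan = fun x => Real.sin x / Real.cos x := by
    ext x; exact Real.tan_eq_sin_div_cos x
  rw [this]
  exact Real.measurable_sin.div Real.measurable_cos

theorem measurable_derivEx (hab : a ≤ b) :
    Measurable (fun p : C(Icc a b, ℝ) × ℝ => deriv (ex hab p.1) p.2) :=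
  measurable_deriv_with_param (f := fun (g : C(Icc a b, ℝ)) x => ex hab g x) (continuous_ex hab)

theorem measurableSet_diff (hab : a ≤ b) :
    MeasurableSet {p : C(Icc a b, ℝ) × ℝ | DifferentiableAt ℝ (ex hab p.1) p.2} :=
  measurableSet_of_differentiableAt_with_param ℝ (f := fun (g : C(Icc a b, ℝ)) x => ex hab g x)
    (continuous_ex hab)

theorem measurable_val (hab : a ≤ b) :
    Measurable (fun p : C(Icc a b, ℝ) × ℝ => val hab p.1 p.2) :=
  measurable_tan.comp (measurable_derivEx hab)

theorem measurable_val_right (hab : a ≤ b) (Φ : C(Icc a b, ℝ)) : Measurable (val hab Φ) :=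
  measurable_tan.comp (measurable_deriv (ex hab Φ))

/-- the class coded by `Φ` -/
noncomputable def decode (hab : a ≤ b) (Φ : C(Icc a b, ℝ)) : MeasFun a b :=
  (AEEqFun.mk (val hab Φ) (measurable_val_right hab Φ).aestronglyMeasurable :
    ℝ →ₘ[volume.restrict (Icc a b)] ℝ)

theorem decode_rep (hab : a ≤ b) (Φ : C(Icc a b, ℝ)) :
    (decode hab Φ).rep =ᵐ[volume.restrict (Icc a b)] val hab Φ :=
  AEEqFun.coeFn_mk _ _

/-- measurability of maps into a second countable metric space -/
theorem measurable_of_edist {X Y : Type*} [MeasurableSpace X] [MetricSpace Y]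
    [SecondCountableTopology Y] [MeasurableSpace Y] [BorelSpace Y] {f : X → Y}
    (h : ∀ y : Y, Measurable fun x => edist (f x) y) : Measurable f := by
  refine measurable_of_isOpen fun U hU => ?_
  have h1 : ∀ y : U, ∃ r : ℝ≥0∞, 0 < r ∧ Metric.eball (y : Y) r ⊆ U := fun y => by
    obtain ⟨r, hr, hr'⟩ := EMetric.mem_nhds_iff.mp (hU.mem_nhds y.2)
    exact ⟨r, hr, hr'⟩
  choose r hr hrU using h1
  obtain ⟨T, hT, hTU⟩ := TopologicalSpace.isOpen_iUnion_countable
    (fun y : U => Metric.eball (y : Y) (r y)) (fun y => Metric.isOpen_eball)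
  have h2 : U = ⋃ y : U, Metric.eball (y : Y) (r y) := by
    apply Subset.antisymm
    · intro y hy
      exact mem_iUnion.mpr ⟨⟨y, hy⟩, Metric.mem_eball_self (hr _)⟩
    · exact iUnion_subset hrU
  rw [h2, ← hTU, preimage_iUnion₂]
  refine MeasurableSet.biUnion hT fun y _ => ?_
  exact measurableSet_lt (h y) measurable_const

theorem measurable_decode (hab : a ≤ b) [MeasurableSpace (MeasFun a b)]
    [BorelSpace (MeasFun a b)] : Measurable (decode (a := a) (b := b) hab) := by
  have : Fact ((1 : ℝ≥0∞) ≠ ⊤) := ⟨ENNReal.one_ne_top⟩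
  let : MeasurableSpace ↥(Lp ℝ 1 (volume.restrict (Icc a b))) := borel _
  have : BorelSpace ↥(Lp ℝ 1 (volume.restrict (Icc a b))) := ⟨rfl⟩
  have key : Measurable (fun Φ : C(Icc a b, ℝ) => (decode hab Φ).toL1) := by
    refine measurable_of_edist fun c => ?_
    have : ∀ Φ : C(Icc a b, ℝ), edist (decode hab Φ).toL1 c =
        ∫⁻ x in Icc a b, ‖Real.arctan (val hab Φ x) - c x‖ₑ := by
      intro Φ
      rw [L1.edist_def]
      refine lintegral_congr_ae ?_
      have h1 := Integrable.coeFn_toL1
        (integrable_arctan (a := a) (b := b) (decode hab Φ).measurable_rep.aestronglyMeasurable)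
      filter_upwards [h1, decode_rep hab Φ] with x hx1 hx2
      rw [edist_eq_enorm_sub, MeasFun.toL1, hx1, hx2]
    simp_rw [this]
    refine Measurable.lintegral_prod_right' (f := fun p : C(Icc a b, ℝ) × ℝ =>
      ‖Real.arctan (val hab p.1 p.2) - c p.2‖ₑ) ?_
    exact ((Real.measurable_arctan.comp (measurable_val hab)).sub
      ((Lp.stronglyMeasurable c).measurable.comp measurable_snd)).enorm
  refine measurable_of_isOpen fun U hU => ?_
  obtain ⟨V, hV, rfl⟩ := (isInducing_toL1 a b).isOpen_iff.mp hU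
  exact key hV.measurableSet

/-- every class is coded -/
theorem decode_surjective (hab : a < b) : Function.Surjective (decode (a := a) (b := b) hab.le) := by
  intro f
  let φ : ℝ → ℝ := (Icc a b).indicator fun x => Real.arctan (f.rep x)
  have hφ : Integrable φ := by
    rw [integrable_indicator_iff measurableSet_Icc]
    exact integrable_arctan f.measurable_rep.aestronglyMeasurable
  let g : ℝ → ℝ := fun x => ∫ t in a..x, φ t
  have hg : Continuous g := intervalIntegral.continuous_primitive (fun _ _ => hφ.intervalIntegrable) a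
  let Φ : C(Icc a b, ℝ) := ⟨fun x => g x, hg.comp continuous_subtype_val⟩
  refine ⟨Φ, ?_⟩
  have hae : val hab.le Φ =ᵐ[volume.restrict (Icc a b)] f.rep := by
    have h1 : ∀ᵐ x : ℝ, x ≠ a := by simp [ae_iff, measure_singleton]
    have h2 : ∀ᵐ x : ℝ, x ≠ b := by simp [ae_iff, measure_singleton]
    rw [Filter.EventuallyEq, ae_restrict_iff' measurableSet_Icc]
    filter_upwards [h1, h2, LocallyIntegrable.ae_hasDerivAt_integral hφ.locallyIntegrable]
      with x hxa hxb hx hxI
    have hxI' : x ∈ Ioo a b := ⟨lt_of_le_of_ne hxI.1 hxa.symm, lt_of_le_of_ne hxI.2 hxb⟩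
    have h3 : HasDerivAt (ex hab.le Φ) (φ x) x := by
      refine (hx a).congr_of_eventuallyEq ?_
      filter_upwards [Ioo_mem_nhds hxI'.1 hxI'.2] with y hy
      rw [ex_of_mem hab.le Φ (Ioo_subset_Icc_self hy)]
      rfl
    have h4 : φ x = Real.arctan (f.rep x) := indicator_of_mem hxI _
    rw [val, h3.deriv, h4, Real.tan_arctan]
  have : (AEEqFun.mk (val hab.le Φ) (measurable_val_right hab.le Φ).aestronglyMeasurable :
      ℝ →ₘ[volume.restrict (Icc a b)] ℝ) = f := by
    rw [← AEEqFun.mk_coeFn f, AEEqFun.mk_eq_mk]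
    exact hae
  exact this

end Q209.DJ
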