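import Mathlib

set_option autoImplicit false

/-! Components of bounded open subsets of the line, and property (N) for functions which are
absolutely continuous on a set. -/

namespace Q209.DJ

open Set MeasureTheory Filter Topology
open scoped ENNReal

/-- a bounded open set is the disjoint union of countably many open intervals with endpoints
outside of it -/
theorem exists_components (O : Set ℝ) (hO : IsOpen O) (hl : BddBelow O) (hu : BddAbove O) :
    ∃ (ι : Type) (_ : Countable ι) (l r : ι → ℝ), (∀ i, l i < r i) ∧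
      (O = ⋃ i, Ioo (l i) (r i)) ∧ Pairwise (Function.onFun Disjoint fun i => Ioo (l i) (r i)) ∧
      (∀ i, l i ∉ O) ∧ ∀ i, r i ∉ O := by
  obtain ⟨A, hA⟩ := hl
  obtain ⟨B, hB⟩ := hu
  have hc : IsClosed Oᶜ := hO.isClosed_compl
  -- for every point of O the nearest points outside
  have key : ∀ x ∈ O, ∃ p : ℝ × ℝ, p.1 < x ∧ x < p.2 ∧ p.1 ∉ O ∧ p.2 ∉ O ∧ Ioo p.1 p.2 ⊆ O := by
    intro x hx
    have hne1 : (Oᶜ ∩ Iic x).Nonempty := by
      refine ⟨A - 1, fun h => ?_, ?_⟩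
      · have := hA h; linarith
      · have := hA hx; simp only [mem_Iic]; linarith
    have hne2 : (Oᶜ ∩ Ici x).Nonempty := by
      refine ⟨B + 1, fun h => ?_, ?_⟩
      · have := hB h; linarith
      · have := hB hx; simp only [mem_Ici]; linarith
    have h1 : sSup (Oᶜ ∩ Iic x) ∈ Oᶜ ∩ Iic x :=
      (hc.inter isClosed_Iic).csSup_mem hne1 ⟨x, fun y hy => hy.2⟩
    have h2 : sInf (Oᶜ ∩ Ici x) ∈ Oᶜ ∩ Ici x :=
      (hc.inter isClosed_Ici).csInf_mem hne2 ⟨x, fun y hy => hy.2⟩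
    refine ⟨(sSup (Oᶜ ∩ Iic x), sInf (Oᶜ ∩ Ici x)), ?_, ?_, h1.1, h2.1, ?_⟩
    · refine lt_of_le_of_ne h1.2 fun h => ?_
      simp only [] at h
      rw [h] at h1; exact h1.1 hx
    · refine lt_of_le_of_ne h2.2 fun h => ?_
      simp only [] at h
      rw [← h] at h2; exact h2.1 hx
    · intro y hy
      by_contra hyO
      rcases le_total y x with h | h
      · have : y ≤ sSup (Oᶜ ∩ Iic x) := le_csSup ⟨x, fun y hy => hy.2⟩ ⟨hyO, h⟩
        exact absurd hy.1 (not_lt.mpr this)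
      · have : sInf (Oᶜ ∩ Ici x) ≤ y := csInf_le ⟨x, fun y hy => hy.2⟩ ⟨hyO, h⟩
        exact absurd hy.2 (not_lt.mpr this)
  let P : Set (ℝ × ℝ) := {p | p.1 < p.2 ∧ p.1 ∉ O ∧ p.2 ∉ O ∧ Ioo p.1 p.2 ⊆ O}
  have hdisj : ∀ p ∈ P, ∀ q ∈ P, ∀ z, z ∈ Ioo p.1 p.2 → z ∈ Ioo q.1 q.2 → p = q := by
    rintro ⟨a, b⟩ ⟨h1, h2, h3, h4⟩ ⟨c, d⟩ ⟨h5, h6, h7, h8⟩ z hz hz'
    simp only [] at *
    have e1 : a = c := by
      rcases lt_trichotomy a c with h | h | h
      · exact absurd (h4 ⟨h, hz'.1.trans hz.2⟩) h6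
      · exact h
      · exact absurd (h8 ⟨h, hz.1.trans hz'.2⟩) h2
    have e2 : b = d := by
      rcases lt_trichotomy b d with h | h | h
      · exact absurd (h8 ⟨hz'.1.trans hz.2, h⟩) h3
      · exact h
      · exact absurd (h4 ⟨hz.1.trans hz'.2, h⟩) h7
    rw [e1, e2]
  have hpd : Pairwise (Function.onFun Disjoint fun i : P => Ioo (i : ℝ × ℝ).1 (i : ℝ × ℝ).2) := by
    intro p q hpq
    rw [Function.onFun, Set.disjoint_left]
    intro z hz hz'
    exact hpq (Subtype.ext (hdisj p p.2 q q.2 z hz hz'))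
  have hcount : Countable P := by
    exact hpd.countable_of_isOpen_disjoint (fun i => isOpen_Ioo)
      (fun i => nonempty_Ioo.mpr i.2.1)
  refine ⟨P, hcount, fun i => (i : ℝ × ℝ).1, fun i => (i : ℝ × ℝ).2, fun i => i.2.1, ?_, hpd,
    fun i => i.2.2.1, fun i => i.2.2.2.1⟩
  ext x
  simp only [mem_iUnion]
  constructor
  · intro hx
    obtain ⟨p, h1, h2, h3, h4, h5⟩ := key x hx
    exact ⟨⟨p, h1.trans h2, h3, h4, h5⟩, h1, h2⟩
  · rintro ⟨i, hi⟩
    exact i.2.2.2.2 hi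

end Q209.DJ
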