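import Mathlib

set_option autoImplicit false

/-! Definitions: oscillation, `AC_*`, `ACG_*`, Denjoy integrability. -/

namespace Q209.DJ

open Set MeasureTheory Filter Topology

/-- the oscillation `ω(F, [c, d])` -/
noncomputable def osc (F : ℝ → ℝ) (c d : ℝ) : ℝ :=
  sSup {r | ∃ x ∈ Icc c d, ∃ y ∈ Icc c d, r = |F x - F y|}

/-- the closed intervals `[c i, d i]` have endpoints in `K` and are pairwise non-overlapping -/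
def PrePartition (K : Set ℝ) {n : ℕ} (c d : Fin n → ℝ) : Prop :=
  (∀ i, c i ∈ K ∧ d i ∈ K ∧ c i ≤ d i) ∧ ∀ i j, i ≠ j → d i ≤ c j ∨ d j ≤ c i

/-- the sums `∑ ω (c i) (d i)` over `K`-edged pre-partitions of small total length are small -/
def ACgen (ω : ℝ → ℝ → ℝ) (K : Set ℝ) : Prop :=
  ∀ ε > 0, ∃ δ > 0, ∀ (n : ℕ) (c d : Fin n → ℝ), PrePartition K c d →
    ∑ i, (d i - c i) < δ → ∑ i, ω (c i) (d i) < ε

/-- `F ∈ AC_*(K)` -/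
def ACStar (F : ℝ → ℝ) (K : Set ℝ) : Prop := ACgen (osc F) K

/-- `F ∈ ACG_*([a, b])` -/
def ACGStar (F : ℝ → ℝ) (a b : ℝ) : Prop :=
  ContinuousOn F (Icc a b) ∧ ∃ K : ℕ → Set ℝ, (∀ n, IsClosed (K n)) ∧ Icc a b = ⋃ n, K n ∧
    ∀ n, ACStar F (K n)

/-- `f` is Denjoy integrable on `[a, b]` -/
def DenjoyIntegrable (f : ℝ → ℝ) (a b : ℝ) : Prop :=
  ∃ F : ℝ → ℝ, ACGStar F a b ∧ ∀ᵐ x ∂(volume.restrict (Icc a b)), HasDerivAt F (f x) x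

/-- `AC(S)`: only the increments over the intervals are counted -/
def ACon (H : ℝ → ℝ) (S : Set ℝ) : Prop := ACgen (fun c d => |H d - H c|) S

theorem ACgen.mono {ω : ℝ → ℝ → ℝ} {K L : Set ℝ} (h : ACgen ω K) (hL : L ⊆ K) : ACgen ω L := by
  intro ε hε
  obtain ⟨δ, hδ, h⟩ := h ε hε
  exact ⟨δ, hδ, fun n c d hp hs => h n c d
    ⟨fun i => ⟨hL (hp.1 i).1, hL (hp.1 i).2.1, (hp.1 i).2.2⟩, hp.2⟩ hs⟩

/-- families indexed by a finite set -/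
theorem ACgen.finset {ω : ℝ → ℝ → ℝ} {K : Set ℝ} (h : ACgen ω K) {ε : ℝ} (hε : 0 < ε) :
    ∃ δ > 0, ∀ {ι : Type} (I : Finset ι) (c d : ι → ℝ), (∀ i ∈ I, c i ∈ K ∧ d i ∈ K ∧ c i ≤ d i) →
      (∀ i ∈ I, ∀ j ∈ I, i ≠ j → d i ≤ c j ∨ d j ≤ c i) →
      ∑ i ∈ I, (d i - c i) < δ → ∑ i ∈ I, ω (c i) (d i) < ε := by
  obtain ⟨δ, hδ, h⟩ := h ε hε
  refine ⟨δ, hδ, fun {ι} I c d h1 h2 h3 => ?_⟩
  have e : Fin I.card ≃ I := I.equivFin.symm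
  have key : ∀ g : ι → ℝ, ∑ k, g (e k) = ∑ i ∈ I, g i := by
    intro g
    rw [← Finset.sum_coe_sort I g]
    exact Equiv.sum_comp e (fun i : I => g i)
  have := h I.card (fun k => c (e k)) (fun k => d (e k))
    ⟨fun k => h1 _ (e k).2, fun i j hij => h2 _ (e i).2 _ (e j).2 fun hh => hij
      (e.injective (Subtype.ext hh))⟩ (by rw [key (fun i => d i - c i)]; exact h3)
  rwa [key (fun i => ω (c i) (d i))] at this

theorem ACgen.add {ω ω' ω'' : ℝ → ℝ → ℝ} {K : Set ℝ} (h : ACgen ω K) (h' : ACgen ω' K)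
    (hle : ∀ c ∈ K, ∀ d ∈ K, c ≤ d → ω'' c d ≤ ω c d + ω' c d) : ACgen ω'' K := by
  intro ε hε
  obtain ⟨δ, hδ, h⟩ := h (ε / 2) (by linarith)
  obtain ⟨δ', hδ', h'⟩ := h' (ε / 2) (by linarith)
  refine ⟨min δ δ', lt_min hδ hδ', fun n c d hp hs => ?_⟩
  have h1 := h n c d hp (hs.trans_le (min_le_left _ _))
  have h2 := h' n c d hp (hs.trans_le (min_le_right _ _))
  calc ∑ i, ω'' (c i) (d i) ≤ ∑ i, (ω (c i) (d i) + ω' (c i) (d i)) :=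
        Finset.sum_le_sum fun i _ => hle _ (hp.1 i).1 _ (hp.1 i).2.1 (hp.1 i).2.2
    _ = ∑ i, ω (c i) (d i) + ∑ i, ω' (c i) (d i) := Finset.sum_add_distrib
    _ < ε := by linarith

theorem ACgen.of_le {ω ω' : ℝ → ℝ → ℝ} {K : Set ℝ} (h : ACgen ω K)
    (hle : ∀ c ∈ K, ∀ d ∈ K, c ≤ d → ω' c d ≤ ω c d) : ACgen ω' K := by
  intro ε hε
  obtain ⟨δ, hδ, h⟩ := h ε hε
  exact ⟨δ, hδ, fun n c d hp hs => (Finset.sum_le_sum fun i _ =>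
    hle _ (hp.1 i).1 _ (hp.1 i).2.1 (hp.1 i).2.2).trans_lt (h n c d hp hs)⟩

theorem bddAbove_osc {F : ℝ → ℝ} {c d : ℝ} (hF : ContinuousOn F (Icc c d)) :
    BddAbove {r | ∃ x ∈ Icc c d, ∃ y ∈ Icc c d, r = |F x - F y|} := by
  have hc : IsCompact (F '' Icc c d) := isCompact_Icc.image_of_continuousOn hF
  obtain ⟨M, hM⟩ := hc.isBounded.exists_norm_le
  refine ⟨M + M, ?_⟩
  rintro r ⟨x, hx, y, hy, rfl⟩
  have h1 := hM _ ⟨x, hx, rfl⟩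
  have h2 := hM _ ⟨y, hy, rfl⟩
  rw [Real.norm_eq_abs] at h1 h2
  exact (abs_sub _ _).trans (add_le_add h1 h2)

theorem le_osc {F : ℝ → ℝ} {c d x y : ℝ} (hF : ContinuousOn F (Icc c d)) (hx : x ∈ Icc c d)
    (hy : y ∈ Icc c d) : |F x - F y| ≤ osc F c d :=
  le_csSup (bddAbove_osc hF) ⟨x, hx, y, hy, rfl⟩

theorem osc_le {F : ℝ → ℝ} {c d M : ℝ} (hcd : c ≤ d)
    (h : ∀ x ∈ Icc c d, ∀ y ∈ Icc c d, |F x - F y| ≤ M) : osc F c d ≤ M := by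
  refine csSup_le ⟨_, c, ⟨le_rfl, hcd⟩, c, ⟨le_rfl, hcd⟩, rfl⟩ ?_
  rintro r ⟨x, hx, y, hy, rfl⟩
  exact h x hx y hy

theorem osc_nonneg {F : ℝ → ℝ} (c d : ℝ) : 0 ≤ osc F c d := by
  refine Real.sSup_nonneg ?_
  rintro r ⟨x, hx, y, hy, rfl⟩
  exact abs_nonneg _

/-- `osc` only depends on the increments -/
theorem osc_congr {F G : ℝ → ℝ} {c d : ℝ}
    (h : ∀ x ∈ Icc c d, ∀ y ∈ Icc c d, F x - F y = G x - G y) : osc F c d = osc G c d := by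
  unfold osc
  congr 1
  ext r
  constructor
  · rintro ⟨x, hx, y, hy, rfl⟩; exact ⟨x, hx, y, hy, by rw [h x hx y hy]⟩
  · rintro ⟨x, hx, y, hy, rfl⟩; exact ⟨x, hx, y, hy, by rw [h x hx y hy]⟩

theorem ACStar.aCon {F : ℝ → ℝ} {K : Set ℝ} {a b : ℝ} (h : ACStar F K)
    (hF : ContinuousOn F (Icc a b)) (hK : K ⊆ Icc a b) : ACon F K :=
  ACgen.of_le h fun c hc d hd hcd =>
    le_osc (hF.mono (Icc_subset_Icc (hK hc).1 (hK hd).2)) ⟨hcd, le_rfl⟩ ⟨le_rfl, hcd⟩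

end Q209.DJ
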