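import Pool.Agent.Q209.DJ.Meas2

set_option autoImplicit false

/-! The set of Denjoy integrable functions is coanalytic. -/

namespace Q209.DJ

open Set MeasureTheory Filter Topology
open scoped ENNReal

variable {a b : ℝ}

/-- the set of (classes of) Denjoy integrable functions -/
def Den (a b : ℝ) : Set (MeasFun a b) := {f | DenjoyIntegrable f.rep a b}

/-- the witnesses for not being Denjoy integrable -/
def WS (hab : a < b) : Set (Cd a b × Icc a b) :=
  {q | (∀ r, lo a r < hi b r → q.1.2.1 r = true →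
      WC (ex hab.le (q.1.2.2 r)) (val hab.le q.1.1) (lo a r) (hi b r)) ∧
    (q.2 : ℝ) ∈ KK q.1.2.1 ∧
    ∀ r, lo a r < hi b r → q.1.2.1 r = false → ¬ ∃ F, Ext hab.le r q.1 F}

theorem measurableSet_WS (hab : a < b) : MeasurableSet (WS hab) := by
  have hflag : ∀ (r : ℚ × ℚ) (c : Bool), MeasurableSet {q : Cd a b × Icc a b | q.1.2.1 r = c} := by
    intro r c
    have : Measurable fun q : Cd a b × Icc a b => q.1.2.1 r :=
      (measurable_pi_apply r).comp (measurable_fst.comp (measurable_snd.comp measurable_fst))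
    exact this (measurableSet_singleton c)
  simp only [WS, ofPred_and]
  refine MeasurableSet.inter ?_ (MeasurableSet.inter ?_ ?_)
  · simp only [ofPred_forall]
    refine MeasurableSet.iInter fun r => MeasurableSet.iInter fun _ => ?_
    have : {q : Cd a b × Icc a b | q.1.2.1 r = true →
        WC (ex hab.le (q.1.2.2 r)) (val hab.le q.1.1) (lo a r) (hi b r)} =
        {q : Cd a b × Icc a b | q.1.2.1 r = false} ∪
        (fun q : Cd a b × Icc a b => (q.1.1, q.1.2.2 r)) ⁻¹'
          {p | WC (ex hab.le p.2) (val hab.le p.1) (lo a r) (hi b r)} := by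
      ext q
      simp only [mem_ofPred_eq, mem_union, mem_preimage]
      cases h : q.1.2.1 r <;> simp
    rw [this]
    refine (hflag r false).union ?_
    have h1 : Measurable fun q : Cd a b × Icc a b => (q.1.1, q.1.2.2 r) :=
      (measurable_fst.comp measurable_fst).prodMk ((measurable_pi_apply r).comp
        (measurable_snd.comp (measurable_snd.comp measurable_fst)))
    exact h1 (measurableSet_WC hab.le (lo a r) (hi b r))
  · have h1 : Continuous fun q : Cd a b × Icc a b => (q.1.2.1, (q.2 : ℝ)) :=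
      (continuous_fst.comp (continuous_snd.comp continuous_fst)).prodMk
        (continuous_subtype_val.comp continuous_snd)
    exact (isClosed_KK_graph.preimage h1).measurableSet
  · simp only [ofPred_forall]
    refine MeasurableSet.iInter fun r => MeasurableSet.iInter fun hr => ?_
    have : {q : Cd a b × Icc a b | q.1.2.1 r = false → ¬ ∃ F, Ext hab.le r q.1 F} =
        {q : Cd a b × Icc a b | q.1.2.1 r = true} ∪
        Prod.fst ⁻¹' {p : Cd a b | ∃ F, Ext hab.le r p F}ᶜ := by
      ext q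
      simp only [mem_ofPred_eq, mem_union, mem_preimage, mem_compl_iff]
      cases h : q.1.2.1 r <;> simp
    rw [this]
    exact (hflag r true).union (measurable_fst (measurableSet_exists_Ext hab hr).compl)

/-- continuous functions on `[a, b]` from functions on `[c, d]` -/
noncomputable def cut (F : ℝ → ℝ) (c d : ℝ) (hcd : c ≤ d) (hF : ContinuousOn F (Icc c d)) :
    C(Icc a b, ℝ) :=
  ⟨fun x => F (max c (min x d)), by
    refine hF.comp_continuous (by fun_prop) fun x => ?_
    exact ⟨le_max_left _ _, max_le hcd (min_le_right _ _)⟩⟩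

theorem ex_cut (hab : a ≤ b) {F : ℝ → ℝ} {c d : ℝ} {hcd : c ≤ d} {hF : ContinuousOn F (Icc c d)}
    (hac : a ≤ c) (hdb : d ≤ b) {x : ℝ} (hx : x ∈ Icc c d) :
    ex hab (cut (a := a) (b := b) F c d hcd hF) x = F x := by
  rw [ex_of_mem hab _ (⟨hac.trans hx.1, hx.2.trans hdb⟩ : x ∈ Icc a b)]
  simp only [cut, ContinuousMap.coe_mk]
  rw [min_eq_left hx.2, max_eq_right hx.1]

theorem ae_cut (hab : a ≤ b) {F f : ℝ → ℝ} {c d : ℝ} {hcd : c ≤ d}
    {hF : ContinuousOn F (Icc c d)} (hac : a ≤ c) (hdb : d ≤ b)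
    (hd : ∀ᵐ x ∂(volume.restrict (Icc c d)), HasDerivAt F (f x) x) :
    ∀ᵐ x ∂(volume.restrict (Icc c d)),
      HasDerivAt (ex hab (cut (a := a) (b := b) F c d hcd hF)) (f x) x := by
  have h1 : ∀ᵐ x : ℝ, x ≠ c := by simp [ae_iff, measure_singleton]
  have h2 : ∀ᵐ x : ℝ, x ≠ d := by simp [ae_iff, measure_singleton]
  rw [ae_restrict_iff' measurableSet_Icc] at hd ⊢
  filter_upwards [h1, h2, hd] with x hxc hxd hx hxI
  refine (hx hxI).congr_of_eventuallyEq ?_
  filter_upwards [Ioo_mem_nhds (lt_of_le_of_ne hxI.1 hxc.symm) (lt_of_le_of_ne hxI.2 hxd)]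
    with y hy
  exact ex_cut hab hac hdb (Ioo_subset_Icc_self hy)

theorem den_iff (hab : a ≤ b) (Φ : C(Icc a b, ℝ)) :
    decode hab Φ ∈ Den a b ↔ DenjoyIntegrable (val hab Φ) a b :=
  ⟨fun h => h.congr (decode_rep hab Φ), fun h => h.congr (decode_rep hab Φ).symm⟩

/-- a non-integrable function has a witness -/
theorem exists_witness (hab : a < b) (Φ : C(Icc a b, ℝ))
    (h : ¬ DenjoyIntegrable (val hab.le Φ) a b) :
    ∃ q ∈ WS hab, q.1.1 = Φ := by
  classical
  set f := val hab.le Φ with hf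
  have hla : ∀ r, a ≤ lo a r := fun r => le_max_left _ _
  have hhb : ∀ r, hi b r ≤ b := fun r => min_le_left _ _
  let e : ℚ × ℚ → Bool := fun r => decide (DenjoyIntegrable f (lo a r) (hi b r))
  have he : ∀ r, e r = true ↔ DenjoyIntegrable f (lo a r) (hi b r) := fun r => by simp [e]
  have hG : ∀ r, ∃ G : C(Icc a b, ℝ), lo a r ≤ hi b r → e r = true →
      ACGStar (ex hab.le G) (lo a r) (hi b r) ∧
      ∀ᵐ x ∂(volume.restrict (Icc (lo a r) (hi b r))), HasDerivAt (ex hab.le G) (f x) x := by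
    intro r
    by_cases hr : lo a r ≤ hi b r ∧ e r = true
    · obtain ⟨F, hF, hd⟩ := (he r).mp hr.2
      refine ⟨cut F (lo a r) (hi b r) hr.1 hF.1, fun _ _ => ⟨hF.congr fun x hx y hy => ?_,
        ae_cut hab.le (hla r) (hhb r) hd⟩⟩
      rw [ex_cut hab.le (hla r) (hhb r) hx, ex_cut hab.le (hla r) (hhb r) hy]
    · exact ⟨0, fun h1 h2 => absurd ⟨h1, h2⟩ hr⟩
  choose G hG using hG
  have hx0 : ∃ x ∈ Icc a b, x ∈ KK e := by
    by_contra hcon
    push Not at hcon
    refine h (DenjoyIntegrable.of_local hab.le fun x hx => ?_)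
    have := hcon x hx
    simp only [KK, mem_ofPred_eq, not_forall, not_not] at this
    obtain ⟨r, hr, h1, h2⟩ := this
    exact ⟨r.1, r.2, h1, h2, (he r).mp hr⟩
  obtain ⟨x0, hx0, hx0K⟩ := hx0
  refine ⟨((Φ, (e, G)), ⟨x0, hx0⟩), ⟨?_, hx0K, ?_⟩, rfl⟩
  · intro r hr hre
    obtain ⟨h1, h2⟩ := hG r hr.le hre
    exact h1.wc h2
  · rintro r hr hre ⟨F, hF1, hF2, hF3, hF4, hF5⟩
    simp only at hre hF3 hF4 hF5
    have hnot : ¬ e r = true := by rw [hre]; simp
    refine hnot ((he r).mpr ⟨ex hab.le F, ?_, hF3⟩)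
    refine ACGStar.extend hr.le (continuous_ex_right hab.le F).continuousOn (isClosed_KK e) hF5
      (ι := {s : ℚ × ℚ // e s = true ∧ lo a s ≤ hi b s})
      (fun s => max (lo a r) (lo a s)) (fun s => min (hi b r) (hi b s))
      (fun s => ex hab.le (G s)) (fun s => ⟨le_max_left _ _, min_le_left _ _⟩) ?_ ?_ ?_
    · intro s
      exact (hG s s.2.2 s.2.1).1.mono (le_max_right _ _) (min_le_right _ _)
    · intro s x hx y hy
      exact hF4 s s.2.1 x hx y hy
    · intro x hx hxK
      simp only [KK, mem_ofPred_eq, not_forall, not_not] at hxK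
      obtain ⟨s, hs, hs1, hs2⟩ := hxK
      have h1 : lo a s ≤ x := max_le ((hla r).trans hx.1.le) hs1.le
      have h2 : x ≤ hi b s := le_min (hx.2.le.trans (hhb r)) hs2.le
      exact ⟨⟨s, hs, h1.trans h2⟩, max_le hx.1.le h1, le_min hx.2.le h2⟩

/-- a Denjoy integrable function has no witness -/
theorem not_witness (hab : a < b) {q : Cd a b × Icc a b} (hq : q ∈ WS hab) :
    ¬ DenjoyIntegrable (val hab.le q.1.1) a b := by
  obtain ⟨⟨Φ, e, G⟩, x0⟩ := q
  obtain ⟨h1, h2, h3⟩ := hq
  simp only at h1 h2 h3 ⊢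
  rintro ⟨F, hF, hd⟩
  have hla : ∀ r, a ≤ lo a r := fun r => le_max_left _ _
  have hhb : ∀ r, hi b r ≤ b := fun r => min_le_left _ _
  -- the partial integrals agree with `F`
  have hagree : ∀ s, e s = true → ∀ x ∈ Icc (lo a s) (hi b s), ∀ y ∈ Icc (lo a s) (hi b s),
      ex hab.le (G s) x - ex hab.le (G s) y = F x - F y := by
    intro s hs x hx y hy
    rcases lt_or_ge (lo a s) (hi b s) with hlt | hge
    · exact wc_unique hlt (hF.mono (hla s) (hhb s))
        (ae_restrict_of_ae_restrict_of_subset (Icc_subset_Icc (hla s) (hhb s)) hd)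
        (continuous_ex_right hab.le (G s)).continuousOn (h1 s hlt hs) x hx y hy
    · have : x = y := by
        have e1 := hx.1.trans (hx.2.trans hge)
        have e2 : x = lo a s := le_antisymm (hx.2.trans hge) hx.1
        have e3 : y = lo a s := le_antisymm (hy.2.trans hge) hy.1
        rw [e2, e3]
      rw [this]; ring
  obtain ⟨hFc, K, hK, hcov, hAC⟩ := hF
  obtain ⟨n, z, hz, ε, hε, hport⟩ := baire_portion (Q := KK e ∩ Icc a b)
    ((isClosed_KK e).inter isClosed_Icc) ⟨x0, h2, x0.2⟩ hK (fun x hx => hcov ▸ hx.2)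
  obtain ⟨p, hp1, hp2⟩ := exists_rat_btwn (show z - ε < z by linarith)
  obtain ⟨r, hr1, hr2⟩ := exists_rat_btwn (show z < z + ε by linarith)
  have hzab : z ∈ Icc a b := hz.2
  have hlt : lo a (p, r) < hi b (p, r) := by
    refine max_lt (lt_min hab (hzab.1.trans_lt hr1)) (lt_min (hp2.trans_le hzab.2) (hp2.trans hr1))
  have hflag : e (p, r) = false := by
    by_contra hcon
    exact hz.1 (p, r) (by simpa using hcon) ⟨hp2, hr1⟩
  have hcont : ContinuousOn (fun x => F x - F (lo a (p, r))) (Icc (lo a (p, r)) (hi b (p, r))) :=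
    (hFc.mono (Icc_subset_Icc (hla _) (hhb _))).sub continuousOn_const
  refine h3 (p, r) hlt hflag ⟨cut (fun x => F x - F (lo a (p, r))) (lo a (p, r)) (hi b (p, r))
    hlt.le hcont, ?_, ?_, ?_, ?_, ?_⟩
  · rw [ex_cut hab.le (hla _) (hhb _) ⟨le_rfl, hlt.le⟩, sub_self]
  · intro x
    have hm : max (lo a (p, r)) (min x (hi b (p, r))) ∈ Icc (lo a (p, r)) (hi b (p, r)) :=
      ⟨le_max_left _ _, max_le hlt.le (min_le_right _ _)⟩
    rw [ex_cut hab.le (hla _) (hhb _) hm]
    simp only [ex, IccExtend, Function.comp, cut, ContinuousMap.coe_mk, coe_projIcc]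
    have : max (lo a (p, r)) (min (max a (min b x)) (hi b (p, r))) =
        max (lo a (p, r)) (min x (hi b (p, r))) := by
      have e1 := hla (p, r)
      have e2 := hhb (p, r)
      rcases le_total x a with hxa | hxa
      · rw [min_eq_right (hxa.trans hab.le), max_eq_left hxa,
          max_eq_left ((min_le_left _ _).trans e1), max_eq_left ((min_le_left _ _).trans (hxa.trans e1))]
      · rcases le_total x b with hxb | hxb
        · rw [min_eq_right hxb, max_eq_right hxa]
        · rw [min_eq_left hxb, max_eq_right hab.le, min_eq_right e2, min_eq_right (e2.trans hxb)]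
    rw [this]
  · refine ae_cut hab.le (hla _) (hhb _) ?_
    exact (ae_restrict_of_ae_restrict_of_subset (Icc_subset_Icc (hla _) (hhb _)) hd).mono
      fun x hx => hx.sub_const _
  · intro s hs x hx y hy
    simp only at hs
    have hx1 : x ∈ Icc (lo a (p, r)) (hi b (p, r)) :=
      ⟨(le_max_left _ _).trans hx.1, hx.2.trans (min_le_left _ _)⟩
    have hy1 : y ∈ Icc (lo a (p, r)) (hi b (p, r)) :=
      ⟨(le_max_left _ _).trans hy.1, hy.2.trans (min_le_left _ _)⟩
    rw [ex_cut hab.le (hla _) (hhb _) hx1, ex_cut hab.le (hla _) (hhb _) hy1,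
      hagree s hs x ⟨(le_max_right _ _).trans hx.1, hx.2.trans (min_le_right _ _)⟩
        y ⟨(le_max_right _ _).trans hy.1, hy.2.trans (min_le_right _ _)⟩]
    ring
  · have hsub : KK e ∩ Icc (lo a (p, r)) (hi b (p, r)) ⊆ K n := by
      intro x hx
      have h5 : (p : ℝ) ≤ x := (le_max_right _ _).trans hx.2.1
      have h6 : x ≤ (r : ℝ) := hx.2.2.trans (min_le_right _ _)
      exact hport ⟨⟨hx.1, (hla _).trans hx.2.1, hx.2.2.trans (hhb _)⟩, by linarith, by linarith⟩
    refine ACStar.congr inter_subset_right (fun x hx y hy => ?_) (ACgen.mono (hAC n) hsub)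
    rw [ex_cut hab.le (hla _) (hhb _) hx, ex_cut hab.le (hla _) (hhb _) hy]
    ring

/-- `Den [a, b]` is coanalytic -/
theorem den_coanalytic (hab : a < b) : AnalyticSet (Den a b)ᶜ := by
  let : MeasurableSpace (MeasFun a b) := borel _
  have : BorelSpace (MeasFun a b) := ⟨rfl⟩
  have heq : (Den a b)ᶜ = (fun q : Cd a b × Icc a b => decode hab.le q.1.1) '' WS hab := by
    ext f
    constructor
    · intro hf
      obtain ⟨Φ, rfl⟩ := decode_surjective hab f
      obtain ⟨q, hq, hqΦ⟩ := exists_witness hab Φ fun h => hf ((den_iff hab.le Φ).mpr h)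
      exact ⟨q, hq, by rw [← hqΦ]⟩
    · rintro ⟨q, hq, rfl⟩ hf
      exact not_witness hab hq ((den_iff hab.le q.1.1).mp hf)
  rw [heq]
  refine (measurableSet_WS hab).analyticSet_image ?_
  exact (measurable_decode hab.le).comp (measurable_fst.comp measurable_fst)

end Q209.DJ
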