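import Pool.Agent.Q209.DJ.Main1

set_option autoImplicit false

/-! Restriction, concatenation and extension of Denjoy integrals. -/

namespace Q209.DJ

open Set MeasureTheory Filter Topology
open scoped ENNReal

theorem ACStar.empty (F : ℝ → ℝ) : ACStar F ∅ := by
  intro ε hε
  refine ⟨1, one_pos, fun n c d hp _ => ?_⟩
  rcases n with _ | n
  · simpa using hε
  · exact absurd (hp.1 0).1 (by simp)

theorem ACStar.singleton (F : ℝ → ℝ) (z : ℝ) : ACStar F {z} := by
  intro ε hε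
  refine ⟨1, one_pos, fun n c d hp _ => ?_⟩
  have : ∀ i, osc F (c i) (d i) = 0 := by
    intro i
    have h1 : c i = z := (hp.1 i).1
    have h2 : d i = z := (hp.1 i).2.1
    rw [h1, h2]
    refine le_antisymm (osc_le le_rfl fun x hx y hy => ?_) (osc_nonneg _ _)
    have hx' : x = z := le_antisymm hx.2 hx.1
    have hy' : y = z := le_antisymm hy.2 hy.1
    rw [hx', hy', sub_self, abs_zero]
  simp only [this, Finset.sum_const_zero]
  exact hε

theorem ACStar.congr {F G : ℝ → ℝ} {K : Set ℝ} {c d : ℝ} (hK : K ⊆ Icc c d)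
    (h : ∀ x ∈ Icc c d, ∀ y ∈ Icc c d, F x - F y = G x - G y) (hF : ACStar F K) :
    ACStar G K := by
  refine ACgen.of_le hF fun x hx y hy _ => le_of_eq (osc_congr fun u hu v hv => ?_)
  exact (h u ⟨(hK hx).1.trans hu.1, hu.2.trans (hK hy).2⟩ v
    ⟨(hK hx).1.trans hv.1, hv.2.trans (hK hy).2⟩).symm

theorem ACGStar.of_countable {F : ℝ → ℝ} {a b : ℝ} {ι : Type} [Countable ι]
    (hF : ContinuousOn F (Icc a b)) (K : ι → Set ℝ) (hK : ∀ i, IsClosed (K i))
    (hKs : ∀ i, K i ⊆ Icc a b) (hcov : Icc a b ⊆ ⋃ i, K i) (hAC : ∀ i, ACStar F (K i)) :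
    ACGStar F a b := by
  have := Encodable.ofCountable ι
  refine ⟨hF, fun n => match Encodable.decode (α := ι) n with
    | some i => K i
    | none => ∅, fun n => ?_, ?_, fun n => ?_⟩
  · simp only []
    split
    · exact hK _
    · exact isClosed_empty
  · apply Subset.antisymm
    · intro x hx
      obtain ⟨i, hi⟩ := mem_iUnion.mp (hcov hx)
      refine mem_iUnion.mpr ⟨Encodable.encode i, ?_⟩
      simp only [Encodable.encodek]
      exact hi
    · refine iUnion_subset fun n => ?_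
      split
      · exact hKs _
      · exact empty_subset _
  · simp only []
    split
    · exact hAC _
    · exact ACStar.empty F

theorem ACGStar.mono {F : ℝ → ℝ} {a b c d : ℝ} (hF : ACGStar F a b) (hac : a ≤ c) (hdb : d ≤ b) :
    ACGStar F c d := by
  obtain ⟨hFc, K, hK, hcov, hAC⟩ := hF
  have hsub : Icc c d ⊆ Icc a b := Icc_subset_Icc hac hdb
  refine ⟨hFc.mono hsub, fun n => K n ∩ Icc c d, fun n => (hK n).inter isClosed_Icc, ?_,
    fun n => ACgen.mono (hAC n) inter_subset_left⟩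
  rw [← iUnion_inter, ← hcov, inter_eq_self_of_subset_right hsub]

theorem ACGStar.congr {F G : ℝ → ℝ} {a b : ℝ} (hF : ACGStar F a b)
    (h : ∀ x ∈ Icc a b, ∀ y ∈ Icc a b, F x - F y = G x - G y) : ACGStar G a b := by
  obtain ⟨hFc, K, hK, hcov, hAC⟩ := hF
  refine ⟨?_, K, hK, hcov, fun n => (hAC n).congr (hcov ▸ subset_iUnion K n) h⟩
  rcases (Icc a b).eq_empty_or_nonempty with h0 | ⟨z, hz⟩
  · rw [h0]; exact continuousOn_empty _
  · refine (hFc.sub (continuousOn_const (c := F z - G z))).congr fun x hx => ?_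
    have := h x hx z hz
    simp only [Pi.sub_apply]
    linarith

theorem DenjoyIntegrable.mono {f : ℝ → ℝ} {a b c d : ℝ} (h : DenjoyIntegrable f a b)
    (hac : a ≤ c) (hdb : d ≤ b) : DenjoyIntegrable f c d := by
  obtain ⟨F, hF, hd⟩ := h
  exact ⟨F, hF.mono hac hdb,
    ae_restrict_of_ae_restrict_of_subset (Icc_subset_Icc hac hdb) hd⟩

theorem DenjoyIntegrable.congr {f g : ℝ → ℝ} {a b : ℝ} (h : DenjoyIntegrable f a b)
    (hfg : ∀ᵐ x ∂(volume.restrict (Icc a b)), f x = g x) : DenjoyIntegrable g a b := by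
  obtain ⟨F, hF, hd⟩ := h
  refine ⟨F, hF, ?_⟩
  filter_upwards [hd, hfg] with x h1 h2
  rwa [h2] at h1

theorem DenjoyIntegrable.of_ge {f : ℝ → ℝ} {c d : ℝ} (h : d ≤ c) : DenjoyIntegrable f c d := by
  refine ⟨fun _ => 0, ACGStar.of_countable (ι := Unit) continuousOn_const (fun _ => Icc c d)
    (fun _ => isClosed_Icc) (fun _ => subset_rfl) (fun x hx => mem_iUnion.mpr ⟨(), hx⟩) ?_, ?_⟩
  · intro _
    refine ACgen.mono (ACStar.singleton (fun _ => 0) c) ?_
    intro x hx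
    exact le_antisymm (hx.2.trans h) hx.1
  · have : volume (Icc c d) = 0 := by
      rw [Real.volume_Icc, ENNReal.ofReal_eq_zero]; linarith
    rw [Measure.restrict_eq_zero.mpr this]
    simp

theorem DenjoyIntegrable.glue {f : ℝ → ℝ} {a m b : ℝ} (ham : a ≤ m) (hmb : m ≤ b)
    (h1 : DenjoyIntegrable f a m) (h2 : DenjoyIntegrable f m b) : DenjoyIntegrable f a b := by
  obtain ⟨F1, hF1, hd1⟩ := h1
  obtain ⟨F2, hF2, hd2⟩ := h2
  let F : ℝ → ℝ := fun x => if x ≤ m then F1 x else F2 x - F2 m + F1 m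
  have e1 : ∀ x ∈ Icc a m, F x = F1 x := fun x hx => if_pos hx.2
  have e2 : ∀ x ∈ Icc m b, F x = F2 x - F2 m + F1 m := by
    intro x hx
    rcases eq_or_lt_of_le hx.1 with h | h
    · simp only [F, ← h, le_refl, if_true]; ring
    · exact if_neg (not_le.mpr h)
  have i1 : ∀ x ∈ Icc a m, ∀ y ∈ Icc a m, F1 x - F1 y = F x - F y := by
    intro x hx y hy; rw [e1 x hx, e1 y hy]
  have i2 : ∀ x ∈ Icc m b, ∀ y ∈ Icc m b, F2 x - F2 y = F x - F y := by
    intro x hx y hy; rw [e2 x hx, e2 y hy]; ring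
  have hF1' := hF1.congr i1
  have hF2' := hF2.congr i2
  have hc : ContinuousOn F (Icc a b) := by
    rw [← Icc_union_Icc_eq_Icc ham hmb]
    exact hF1'.1.union_of_isClosed hF2'.1 isClosed_Icc isClosed_Icc
  obtain ⟨-, K1, hK1, hcov1, hAC1⟩ := hF1'
  obtain ⟨-, K2, hK2, hcov2, hAC2⟩ := hF2'
  refine ⟨F, ACGStar.of_countable (ι := ℕ ⊕ ℕ) hc (Sum.elim K1 K2) ?_ ?_ ?_ ?_, ?_⟩
  · rintro (n | n)
    · exact hK1 n
    · exact hK2 n
  · rintro (n | n)
    · exact (hcov1 ▸ subset_iUnion K1 n : K1 n ⊆ Icc a m).trans (Icc_subset_Icc le_rfl hmb)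
    · exact (hcov2 ▸ subset_iUnion K2 n : K2 n ⊆ Icc m b).trans (Icc_subset_Icc ham le_rfl)
  · rw [← Icc_union_Icc_eq_Icc ham hmb]
    rintro x (hx | hx)
    · rw [hcov1] at hx
      obtain ⟨n, hn⟩ := mem_iUnion.mp hx
      exact mem_iUnion.mpr ⟨Sum.inl n, hn⟩
    · rw [hcov2] at hx
      obtain ⟨n, hn⟩ := mem_iUnion.mp hx
      exact mem_iUnion.mpr ⟨Sum.inr n, hn⟩
  · rintro (n | n)
    · exact hAC1 n
    · exact hAC2 n
  · rw [ae_restrict_iff' measurableSet_Icc] at hd1 hd2 ⊢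
    have hm : ∀ᵐ x : ℝ, x ≠ m := by simp [ae_iff, measure_singleton]
    filter_upwards [hd1, hd2, hm] with x hx1 hx2 hxm hx
    rcases lt_or_gt_of_ne hxm with h | h
    · refine (hx1 ⟨hx.1, h.le⟩).congr_of_eventuallyEq ?_
      filter_upwards [Iio_mem_nhds h] with y hy
      exact if_pos (le_of_lt hy)
    · have := ((hx2 ⟨h.le, hx.2⟩).sub_const (F2 m)).add_const (F1 m)
      refine this.congr_of_eventuallyEq ?_
      filter_upwards [Ioi_mem_nhds h] with y hy
      exact if_neg (not_le.mpr hy)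

theorem DenjoyIntegrable.of_local {f : ℝ → ℝ} {a b : ℝ} (hab : a ≤ b)
    (h : ∀ x ∈ Icc a b, ∃ p q : ℝ, p < x ∧ x < q ∧ DenjoyIntegrable f (max a p) (min b q)) :
    DenjoyIntegrable f a b := by
  choose! p q hp hq hD using h
  obtain ⟨t, ht0, htm, ⟨N, hN⟩, ht⟩ := exists_monotone_Icc_subset_open_cover_Icc hab
    (c := fun x : Icc a b => {y : Icc a b | p x < y ∧ (y : ℝ) < q x})
    (fun x => (isOpen_lt continuous_const continuous_subtype_val).inter
      (isOpen_lt continuous_subtype_val continuous_const))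
    (fun x _ => mem_iUnion.mpr ⟨x, hp x x.2, hq x x.2⟩)
  have key : ∀ n, DenjoyIntegrable f a (t n) := by
    intro n
    induction n with
    | zero => rw [ht0]; exact DenjoyIntegrable.of_ge le_rfl
    | succ n ih =>
      refine ih.glue (t n).2.1 (htm (Nat.le_succ n)) ?_
      obtain ⟨x, hx⟩ := ht n
      have h1 := hx (left_mem_Icc.mpr (htm (Nat.le_succ n)))
      have h2 := hx (right_mem_Icc.mpr (htm (Nat.le_succ n)))
      exact (hD x x.2).mono (max_le (t n).2.1 h1.1.le) (le_min (t (n + 1)).2.2 h2.2.le)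
  have := key N
  rwa [hN N le_rfl] at this

/-- the extension step -/
theorem ACGStar.extend {F : ℝ → ℝ} {c d : ℝ} (hcd : c ≤ d) (hF : ContinuousOn F (Icc c d))
    {K : Set ℝ} (hK : IsClosed K) (hKF : ACStar F (K ∩ Icc c d)) {ι : Type} [Countable ι]
    (l r : ι → ℝ) (Fi : ι → ℝ → ℝ) (hi : ∀ i, c ≤ l i ∧ r i ≤ d)
    (hFi : ∀ i, ACGStar (Fi i) (l i) (r i))
    (hconst : ∀ i, ∀ x ∈ Icc (l i) (r i), ∀ y ∈ Icc (l i) (r i), Fi i x - Fi i y = F x - F y)
    (hcov : ∀ x ∈ Ioo c d, x ∉ K → ∃ i, x ∈ Icc (l i) (r i)) : ACGStar F c d := by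
  have h1 : ∀ i, ∃ L : ℕ → Set ℝ, (∀ n, IsClosed (L n)) ∧ Icc (l i) (r i) = ⋃ n, L n ∧
      ∀ n, ACStar F (L n) := fun i => ((hFi i).congr (hconst i)).2
  choose L hL1 hL2 hL3 using h1
  refine ACGStar.of_countable (ι := Option (Option (Option (ι × ℕ)))) hF
    (fun o => match o with
      | none => K ∩ Icc c d
      | some none => {c}
      | some (some none) => {d}
      | some (some (some p)) => L p.1 p.2) ?_ ?_ ?_ ?_
  · rintro (_ | _ | _ | p)
    · exact hK.inter isClosed_Icc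
    · exact isClosed_singleton
    · exact isClosed_singleton
    · exact hL1 _ _
  · rintro (_ | _ | _ | p)
    · exact inter_subset_right
    · exact singleton_subset_iff.mpr ⟨le_rfl, hcd⟩
    · exact singleton_subset_iff.mpr ⟨hcd, le_rfl⟩
    · exact (hL2 p.1 ▸ subset_iUnion (L p.1) p.2 : L p.1 p.2 ⊆ Icc (l p.1) (r p.1)).trans
        (Icc_subset_Icc (hi p.1).1 (hi p.1).2)
  · intro x hx
    by_cases hxK : x ∈ K
    · exact mem_iUnion.mpr ⟨none, hxK, hx⟩
    rcases eq_or_lt_of_le hx.1 with h | h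
    · exact mem_iUnion.mpr ⟨some none, h.symm⟩
    rcases eq_or_lt_of_le hx.2 with h' | h'
    · exact mem_iUnion.mpr ⟨some (some none), h'⟩
    obtain ⟨i, hi'⟩ := hcov x ⟨h, h'⟩ hxK
    rw [hL2] at hi'
    obtain ⟨n, hn⟩ := mem_iUnion.mp hi'
    exact mem_iUnion.mpr ⟨some (some (some (i, n))), hn⟩
  · rintro (_ | _ | _ | p)
    · exact hKF
    · exact ACStar.singleton F c
    · exact ACStar.singleton F d
    · exact hL3 _ _

end Q209.DJ
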