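import Pool.Agent.Q209.DJ.Portion

set_option autoImplicit false

/-! The uniqueness theorem. -/

namespace Q209.DJ

open Set MeasureTheory Filter Topology
open scoped ENNReal

theorem sum_length_le {ι : Type} (I : Finset ι) {c d : ι → ℝ} {s t : ℝ} (hst : s ≤ t)
    (h1 : ∀ i ∈ I, s ≤ c i ∧ d i ≤ t ∧ c i ≤ d i)
    (h2 : ∀ i ∈ I, ∀ j ∈ I, i ≠ j → d i ≤ c j ∨ d j ≤ c i) : ∑ i ∈ I, (d i - c i) ≤ t - s := by
  have h3 : ∑ i ∈ I, volume (Ioo (c i) (d i)) ≤ volume (Icc s t) := by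
    rw [← measure_biUnion_finset (fun i hi j hj hij => ?_) (fun i _ => measurableSet_Ioo)]
    · exact measure_mono (iUnion₂_subset fun i hi =>
        Ioo_subset_Icc_self.trans (Icc_subset_Icc (h1 i hi).1 (h1 i hi).2.1))
    · rw [Function.onFun, Set.disjoint_left]
      intro z hz hz'
      rcases h2 i hi j hj hij with h | h
      · linarith [hz.2, hz'.1]
      · linarith [hz.1, hz'.2]
  have h4 : ∑ i ∈ I, volume (Ioo (c i) (d i)) = ENNReal.ofReal (∑ i ∈ I, (d i - c i)) := by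
    rw [ENNReal.ofReal_sum_of_nonneg fun i hi => sub_nonneg.mpr (h1 i hi).2.2]
    simp
  rw [h4, Real.volume_Icc] at h3
  exact (ENNReal.ofReal_le_ofReal_iff (by linarith)).mp h3

/-- the set of points of `[c, d]` at which `H` is not locally constant -/
def Bad (H : ℝ → ℝ) (c d : ℝ) : Set ℝ := {t ∈ Icc c d | ¬ ∀ᶠ x in 𝓝[Icc c d] t, H x = H t}

theorem Bad.isClosed (H : ℝ → ℝ) (c d : ℝ) : IsClosed (Bad H c d) := by
  rw [← isOpen_compl_iff, isOpen_iff_mem_nhds]
  intro t ht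
  by_cases htI : t ∈ Icc c d
  · have h1 : ∀ᶠ x in 𝓝[Icc c d] t, H x = H t := by
      by_contra hcon; exact ht ⟨htI, hcon⟩
    have h2 := eventually_eventually_nhdsWithin.mpr h1
    have h3 : ∀ᶠ y in 𝓝[Icc c d] t, y ∈ (Bad H c d)ᶜ := by
      filter_upwards [h1, h2] with y hy1 hy2 hyB
      exact hyB.2 (hy2.mono fun x hx => by rw [hx, hy1])
    rw [eventually_nhdsWithin_iff] at h3
    filter_upwards [h3] with y hy
    by_cases hyI : y ∈ Icc c d
    · exact hy hyI
    · exact fun hyB => hyI hyB.1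
  · filter_upwards [isClosed_Icc.isOpen_compl.mem_nhds htI] with y hy hyB
    exact hy hyB.1

theorem const_of_bad_empty {H : ℝ → ℝ} {c d : ℝ} (hc : ContinuousOn H (Icc c d))
    (hB : Bad H c d = ∅) : ∀ x ∈ Icc c d, H x = H c := by
  refine constant_of_has_deriv_right_zero hc fun x hx => ?_
  have h1 : ∀ᶠ y in 𝓝[Icc c d] x, H y = H x := by
    by_contra hcon
    have : x ∈ Bad H c d := ⟨Ico_subset_Icc_self hx, hcon⟩
    rw [hB] at this; exact this
  refine (hasDerivWithinAt_const x (Ici x) (H x)).congr_of_eventuallyEq ?_ rfl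
  have h2 : 𝓝[Ici x] x ≤ 𝓝[Icc c d] x := by
    rw [← nhdsWithin_Icc_eq_nhdsGE hx.2]
    exact nhdsWithin_mono _ (Icc_subset_Icc hx.1 le_rfl)
  exact h2 h1

theorem const_on_gap {H : ℝ → ℝ} {c d l r : ℝ} (hcl : c ≤ l) (hrd : r ≤ d)
    (hdisj : Disjoint (Ioo l r) (Bad H c d)) : ∀ x ∈ Ioo l r, ∀ y ∈ Ioo l r, H x = H y := by
  intro x hx y hy
  have key : ∀ z ∈ Ioo l r, HasDerivAt H 0 z := by
    intro z hz
    have hzI : z ∈ Icc c d := ⟨hcl.trans hz.1.le, hz.2.le.trans hrd⟩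
    have h1 : ∀ᶠ y in 𝓝[Icc c d] z, H y = H z := by
      by_contra hcon
      exact Set.disjoint_left.mp hdisj hz ⟨hzI, hcon⟩
    have h2 : Icc c d ∈ 𝓝 z := Icc_mem_nhds (hcl.trans_lt hz.1) (hz.2.trans_le hrd)
    rw [nhdsWithin_eq_nhds.mpr h2] at h1
    exact (hasDerivAt_const z (H z)).congr_of_eventuallyEq h1
  exact isOpen_Ioo.is_const_of_deriv_eq_zero isPreconnected_Ioo
    (fun z hz => (key z hz).differentiableAt.differentiableWithinAt)
    (fun z hz => (key z hz).deriv) hx hy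

theorem countable_image_good {H : ℝ → ℝ} {c d : ℝ} (hcd : c < d) :
    (H '' (Icc c d \ Bad H c d)).Countable := by
  refine (countable_range fun q : ℚ => H q).mono ?_
  rintro _ ⟨x, ⟨hx, hxB⟩, rfl⟩
  have h1 : ∀ᶠ y in 𝓝[Icc c d] x, H y = H x := by
    by_contra hcon; exact hxB ⟨hx, hcon⟩
  rw [eventually_nhdsWithin_iff] at h1
  obtain ⟨ε, hε, hball⟩ := Metric.mem_nhds_iff.mp h1
  have h2 : max c (x - ε) < min d (x + ε) := by
    refine max_lt (lt_min hcd ?_) (lt_min ?_ ?_)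
    · linarith [hx.1]
    · linarith [hx.2]
    · linarith
  obtain ⟨q, hq1, hq2⟩ := exists_rat_btwn h2
  refine ⟨q, hball ?_ ⟨?_, ?_⟩⟩
  · rw [Metric.mem_ball, Real.dist_eq, abs_lt]
    have := (le_max_right _ _).trans_lt hq1
    have := hq2.trans_le (min_le_right _ _)
    constructor <;> linarith
  · exact (le_max_left _ _).trans hq1.le
  · exact hq2.le.trans (min_le_left _ _)

theorem wc_unique {F G f : ℝ → ℝ} {c d : ℝ} (hcd : c < d) (hF : ACGStar F c d)
    (hFd : ∀ᵐ x ∂(volume.restrict (Icc c d)), HasDerivAt F (f x) x)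
    (hGc : ContinuousOn G (Icc c d)) (hG : WC G f c d) :
    ∀ x ∈ Icc c d, ∀ y ∈ Icc c d, G x - G y = F x - F y := by
  obtain ⟨hFc, K, hK, hcov, hAC⟩ := hF
  have hKs : ∀ n, K n ⊆ Icc c d := fun n => hcov ▸ subset_iUnion K n
  let H : ℝ → ℝ := fun x => G x - F x
  have hHc : ContinuousOn H (Icc c d) := hGc.sub hFc
  suffices hB : Bad H c d = ∅ by
    intro x hx y hy
    have h1 := const_of_bad_empty hHc hB x hx
    have h2 := const_of_bad_empty hHc hB y hy
    have h3 : G x - F x = G y - F y := h1.trans h2.symm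
    linarith
  by_contra hne
  rw [← Ne, ← nonempty_iff_ne_empty] at hne
  obtain ⟨n, z, hz, ε, hε, hport⟩ := baire_portion (Bad.isClosed H c d) hne hK
    (fun x hx => hcov ▸ hx.1)
  obtain ⟨δ, hδ, hfam⟩ := ACgen.finset (hAC n) one_pos
  have hzI : z ∈ Icc c d := hz.1
  obtain ⟨η, hη, hηε, hηδ⟩ : ∃ η : ℝ, 0 < η ∧ η < ε ∧ 2 * η < δ :=
    ⟨min ε δ / 4, by have := lt_min hε hδ; linarith, by
      have := lt_min hε hδ; have := min_le_left ε δ; linarith, by
      have := lt_min hε hδ; have := min_le_right ε δ; linarith⟩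
  obtain ⟨s, hs⟩ : ∃ s, s = max c (z - η) := ⟨_, rfl⟩
  obtain ⟨t, ht⟩ : ∃ t, t = min d (z + η) := ⟨_, rfl⟩
  have hcs : c ≤ s := hs ▸ le_max_left _ _
  have hzs : z - η ≤ s := hs ▸ le_max_right _ _
  have htd : t ≤ d := ht ▸ min_le_left _ _
  have hzt : t ≤ z + η := ht ▸ min_le_right _ _
  have hst : s < t := by
    rw [hs, ht]
    refine max_lt (lt_min hcd ?_) (lt_min ?_ ?_)
    · linarith [hzI.1]
    · linarith [hzI.2]
    · linarith
  have hsz : s ≤ z := by rw [hs]; exact max_le hzI.1 (by linarith)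
  have hzt' : z ≤ t := by rw [ht]; exact le_min hzI.2 (by linarith)
  have hstI : Icc s t ⊆ Icc c d := Icc_subset_Icc hcs htd
  let S : Set ℝ := Bad H c d ∩ Icc s t
  have hSc : IsClosed S := (Bad.isClosed H c d).inter isClosed_Icc
  have hSK : S ⊆ K n := by
    intro x hx
    exact hport ⟨hx.1, by linarith [hx.2.1], by linarith [hx.2.2]⟩
  have hSI : S ⊆ Icc c d := fun x hx => hx.1.1
  have hconst : ∀ l ∈ S, ∀ r ∈ S, Disjoint (Ioo l r) S → ∀ x ∈ Ioo l r, ∀ y ∈ Ioo l r,
      G x - G y = F x - F y := by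
    intro l hl r hr hlr x hx y hy
    have : H x = H y := by
      refine const_on_gap (hSI hl).1 (hSI hr).2 (Set.disjoint_left.mpr fun w hw hwB => ?_) x hx y hy
      exact Set.disjoint_left.mp hlr hw ⟨hwB, hl.2.1.trans hw.1.le, hw.2.le.trans hr.2.2⟩
    have h3 : G x - F x = G y - F y := this
    linarith
  have hGS : ACon G S := by
    refine portion_aCon hFc hGc hFd hG hSc ⟨z, hz, hsz, hzt'⟩ hSI ?_ hconst
    intro ι I c' d' h1 h2
    refine (hfam I c' d' (fun i hi => ⟨hSK (h1 i hi).1, hSK (h1 i hi).2.1, (h1 i hi).2.2⟩) h2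
      ?_).le
    have := sum_length_le I hst.le (fun i hi => ⟨(h1 i hi).1.2.1, (h1 i hi).2.1.2.2,
      (h1 i hi).2.2⟩) h2
    linarith
  have hFS : ACon F S := ACgen.mono ((hAC n).aCon hFc (hKs n)) hSK
  have hHS : ACon H S := ACgen.add hGS hFS fun c' _ d' _ _ => by
    have : H d' - H c' = (G d' - G c') - (F d' - F c') := by simp only [H]; ring
    rw [this]
    exact abs_sub _ _
  have hN : ∀ N ⊆ Icc s t, volume N = 0 → volume (H '' N) = 0 := by
    intro N hN h0
    have h1 : volume (H '' (N ∩ S)) = 0 := by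
      refine hHS.null inter_subset_right (measure_mono_null inter_subset_left h0)
        (A := s - 1) (B := t + 1) fun x hx => ?_
      have := hN hx.1
      exact ⟨by linarith [this.1], by linarith [this.2]⟩
    have h2 : volume (H '' (Icc c d \ Bad H c d)) = 0 :=
      (countable_image_good hcd).measure_zero volume
    refine measure_mono_null ?_ (measure_union_null h1 h2)
    rw [← image_union]
    refine image_mono fun x hx => ?_
    by_cases hxB : x ∈ Bad H c d
    · exact Or.inl ⟨hx, hxB, hN hx⟩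
    · exact Or.inr ⟨hstI (hN hx), hxB⟩
  have hder : ∀ᵐ x ∂(volume.restrict (Icc c d)), HasDerivAt H 0 x := by
    filter_upwards [hFd, hG.1] with x h1 h2
    have := h2.sub h1
    rwa [sub_self] at this
  have hcst : ∀ x ∈ Icc s t, H x = H z := by
    have aux : ∀ x ∈ Icc s t, ∀ y ∈ Icc s t, x ≤ y → H x = H y := by
      intro x hx y hy hxy
      have hsub : Icc x y ⊆ Icc s t := Icc_subset_Icc hx.1 hy.2
      exact eq_of_null hxy (hHc.mono (hsub.trans hstI)) (fun N hN' => hN N (hN'.trans hsub))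
        (ae_restrict_of_ae_restrict_of_subset (hsub.trans hstI) hder)
    intro x hx
    rcases le_total x z with h | h
    · exact aux x hx z ⟨hsz, hzt'⟩ h
    · exact (aux z ⟨hsz, hzt'⟩ x hx h).symm
  refine hz.2 ?_
  rw [eventually_nhdsWithin_iff]
  filter_upwards [Ioo_mem_nhds (show z - η < z by linarith) (show z < z + η by linarith)]
    with x hx hxI
  refine hcst x ⟨?_, ?_⟩
  · rw [hs]; exact max_le hxI.1 hx.1.le
  · rw [ht]; exact le_min hxI.2 hx.2.le

end Q209.DJ
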