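import Pool.Agent.Q209.DJ.Code

set_option autoImplicit false

/-! Borel measurability of the conditions. -/

namespace Q209.DJ

open Set MeasureTheory Filter Topology
open scoped ENNReal

variable {a b : ℝ}

theorem osc_attained {F : ℝ → ℝ} {c d : ℝ} (hcd : c ≤ d) (hF : ContinuousOn F (Icc c d)) :
    ∃ s ∈ Icc c d, ∃ t ∈ Icc c d, osc F c d = |F s - F t| := by
  have hcont : ContinuousOn (fun p : ℝ × ℝ => |F p.1 - F p.2|) (Icc c d ×ˢ Icc c d) := by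
    refine ContinuousOn.abs (ContinuousOn.sub ?_ ?_)
    · exact hF.comp continuousOn_fst fun p hp => hp.1
    · exact hF.comp continuousOn_snd fun p hp => hp.2
  obtain ⟨p, hp, hmax⟩ := (isCompact_Icc.prod isCompact_Icc).exists_isMaxOn
    (s := Icc c d ×ˢ Icc c d) ⟨(c, c), ⟨le_rfl, hcd⟩, ⟨le_rfl, hcd⟩⟩ hcont
  refine ⟨p.1, hp.1, p.2, hp.2, le_antisymm (osc_le hcd fun x hx y hy => ?_)
    (le_osc hF hp.1 hp.2)⟩
  exact hmax (show (x, y) ∈ Icc c d ×ˢ Icc c d from ⟨hx, hy⟩)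

/-- the complement of the flagged intervals -/
def KK (e : ℚ × ℚ → Bool) : Set ℝ := {x | ∀ r : ℚ × ℚ, e r = true → ¬ ((r.1 : ℝ) < x ∧ x < r.2)}

theorem isClosed_KK_graph : IsClosed {p : (ℚ × ℚ → Bool) × ℝ | p.2 ∈ KK p.1} := by
  have : {p : (ℚ × ℚ → Bool) × ℝ | p.2 ∈ KK p.1} =
      ⋂ r : ℚ × ℚ, ({p : (ℚ × ℚ → Bool) × ℝ | p.1 r = false} ∪
        {p : (ℚ × ℚ → Bool) × ℝ | ¬ ((r.1 : ℝ) < p.2 ∧ p.2 < (r.2 : ℝ))}) := by
    ext p
    simp only [KK, mem_ofPred_eq, mem_iInter, mem_union]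
    refine forall_congr' fun r => ?_
    cases p.1 r <;> simp
  rw [this]
  refine isClosed_iInter fun r => IsClosed.union ?_ ?_
  · exact isClosed_eq ((continuous_apply r).comp continuous_fst) continuous_const
  · have : {p : (ℚ × ℚ → Bool) × ℝ | ¬ ((r.1 : ℝ) < p.2 ∧ p.2 < r.2)} =
        ((fun p : (ℚ × ℚ → Bool) × ℝ => p.2) ⁻¹' (Ioo (r.1 : ℝ) r.2))ᶜ := rfl
    rw [this]
    exact (isOpen_Ioo.preimage continuous_snd).isClosed_compl

theorem isClosed_KK (e : ℚ × ℚ → Bool) : IsClosed (KK e) :=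
  isClosed_KK_graph.preimage (Continuous.prodMk_right e)

/-- the closed sets whose projections describe the failure of `AC_*` -/
def TT (hab : a ≤ b) (c d : ℝ) (n : ℕ) (δ ε : ℝ) :
    Set (((ℚ × ℚ → Bool) × C(Icc a b, ℝ)) × (Fin n → (Icc c d × Icc c d) × (Icc c d × Icc c d))) :=
  {p | (∀ i, ((p.2 i).1.1 : ℝ) ∈ KK p.1.1) ∧ (∀ i, ((p.2 i).1.2 : ℝ) ∈ KK p.1.1) ∧
    (∀ i, (p.2 i).1.1 ≤ (p.2 i).2.1) ∧ (∀ i, (p.2 i).2.1 ≤ (p.2 i).1.2) ∧
    (∀ i, (p.2 i).1.1 ≤ (p.2 i).2.2) ∧ (∀ i, (p.2 i).2.2 ≤ (p.2 i).1.2) ∧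
    (∀ i j, i ≠ j → (p.2 i).1.2 ≤ (p.2 j).1.1 ∨ (p.2 j).1.2 ≤ (p.2 i).1.1) ∧
    (∑ i, (((p.2 i).1.2 : ℝ) - (p.2 i).1.1) ≤ δ) ∧
    ε ≤ ∑ i, |ex hab p.1.2 (p.2 i).2.1 - ex hab p.1.2 (p.2 i).2.2|}

theorem isClosed_TT (hab : a ≤ b) (c d : ℝ) (n : ℕ) (δ ε : ℝ) : IsClosed (TT hab c d n δ ε) := by
  have hx : ∀ i, Continuous fun p : ((ℚ × ℚ → Bool) × C(Icc a b, ℝ)) ×
      (Fin n → (Icc c d × Icc c d) × (Icc c d × Icc c d)) => (p.2 i).1.1 := fun i => by fun_prop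
  have hy : ∀ i, Continuous fun p : ((ℚ × ℚ → Bool) × C(Icc a b, ℝ)) ×
      (Fin n → (Icc c d × Icc c d) × (Icc c d × Icc c d)) => (p.2 i).1.2 := fun i => by fun_prop
  have hs : ∀ i, Continuous fun p : ((ℚ × ℚ → Bool) × C(Icc a b, ℝ)) ×
      (Fin n → (Icc c d × Icc c d) × (Icc c d × Icc c d)) => (p.2 i).2.1 := fun i => by fun_prop
  have ht : ∀ i, Continuous fun p : ((ℚ × ℚ → Bool) × C(Icc a b, ℝ)) ×
      (Fin n → (Icc c d × Icc c d) × (Icc c d × Icc c d)) => (p.2 i).2.2 := fun i => by fun_prop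
  have hev : ∀ (g : ((ℚ × ℚ → Bool) × C(Icc a b, ℝ)) ×
      (Fin n → (Icc c d × Icc c d) × (Icc c d × Icc c d)) → Icc c d), Continuous g →
      Continuous fun p => ex hab p.1.2 (g p) := fun g hg =>
    (continuous_ex hab).comp ((continuous_snd.comp continuous_fst).prodMk
      (continuous_subtype_val.comp hg))
  have hKK : ∀ (g : ((ℚ × ℚ → Bool) × C(Icc a b, ℝ)) ×
      (Fin n → (Icc c d × Icc c d) × (Icc c d × Icc c d)) → Icc c d), Continuous g →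
      IsClosed {p | (g p : ℝ) ∈ KK p.1.1} := fun g hg =>
    isClosed_KK_graph.preimage ((continuous_fst.comp continuous_fst).prodMk
      (continuous_subtype_val.comp hg))
  unfold TT
  simp only [ofPred_and, ofPred_forall]
  refine (isClosed_iInter fun i => hKK _ (hx i)).inter <|
    (isClosed_iInter fun i => hKK _ (hy i)).inter <|
    (isClosed_iInter fun i => isClosed_le (hx i) (hs i)).inter <|
    (isClosed_iInter fun i => isClosed_le (hs i) (hy i)).inter <|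
    (isClosed_iInter fun i => isClosed_le (hx i) (ht i)).inter <|
    (isClosed_iInter fun i => isClosed_le (ht i) (hy i)).inter <|
    (isClosed_iInter fun i => isClosed_iInter fun j => isClosed_iInter fun _ => ?_).inter <|
    IsClosed.inter ?_ ?_
  · exact (isClosed_le (continuous_subtype_val.comp (hy i))
      (continuous_subtype_val.comp (hx j))).union (isClosed_le (continuous_subtype_val.comp (hy j))
      (continuous_subtype_val.comp (hx i)))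
  · refine isClosed_le (continuous_finsetSum _ fun i _ => ?_) continuous_const
    exact (continuous_subtype_val.comp (hy i)).sub (continuous_subtype_val.comp (hx i))
  · refine isClosed_le continuous_const (continuous_finsetSum _ fun i _ => ?_)
    exact ((hev _ (hs i)).sub (hev _ (ht i))).abs

theorem acStar_iff (hab : a ≤ b) {c d : ℝ} (e : ℚ × ℚ → Bool) (F : C(Icc a b, ℝ)) :
    ACStar (ex hab F) (KK e ∩ Icc c d) ↔ ∀ k : ℕ, ∃ m : ℕ, ∀ n : ℕ,
      (e, F) ∉ Prod.fst '' TT hab c d n (1 / (m + 1)) (1 / (k + 1)) := by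
  have hcont := continuous_ex_right hab F
  constructor
  · intro h k
    obtain ⟨δ, hδ, h⟩ := h (1 / (k + 1)) (by positivity)
    obtain ⟨m, hm⟩ := exists_nat_one_div_lt hδ
    refine ⟨m, fun n => ?_⟩
    rintro ⟨⟨⟨e', F'⟩, p⟩, ⟨h1, h2, h3, h4, h5, h6, h7, h8, h9⟩, heq⟩
    simp only [Prod.mk.injEq] at heq
    obtain ⟨rfl, rfl⟩ := heq
    simp only [] at *
    have := h n (fun i => ((p i).1.1 : ℝ)) (fun i => ((p i).1.2 : ℝ))
      ⟨fun i => ⟨⟨h1 i, (p i).1.1.2⟩, ⟨h2 i, (p i).1.2.2⟩, (h3 i).trans (h4 i)⟩, h7⟩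
      (h8.trans_lt hm)
    refine absurd (h9.trans (Finset.sum_le_sum fun i _ => ?_)) (not_le.mpr this)
    exact le_osc hcont.continuousOn ⟨h3 i, h4 i⟩ ⟨h5 i, h6 i⟩
  · intro h ε hε
    obtain ⟨k, hk⟩ := exists_nat_one_div_lt hε
    obtain ⟨m, hm⟩ := h k
    refine ⟨1 / (m + 1), by positivity, fun n c' d' hp hs => ?_⟩
    by_contra hcon
    push Not at hcon
    have hat : ∀ i, ∃ s ∈ Icc (c' i) (d' i), ∃ t ∈ Icc (c' i) (d' i),
        osc (ex hab F) (c' i) (d' i) = |ex hab F s - ex hab F t| := fun i =>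
      osc_attained (hp.1 i).2.2 hcont.continuousOn
    choose s hs' t ht' hst using hat
    refine hm n ⟨((e, F), fun i => ((⟨c' i, (hp.1 i).1.2⟩, ⟨d' i, (hp.1 i).2.1.2⟩),
      (⟨s i, (hp.1 i).1.2.1.trans (hs' i).1, (hs' i).2.trans (hp.1 i).2.1.2.2⟩,
       ⟨t i, (hp.1 i).1.2.1.trans (ht' i).1, (ht' i).2.trans (hp.1 i).2.1.2.2⟩))), ?_, rfl⟩
    refine ⟨fun i => (hp.1 i).1.1, fun i => (hp.1 i).2.1.1, fun i => (hs' i).1,
      fun i => (hs' i).2, fun i => (ht' i).1, fun i => (ht' i).2, fun i j hij => hp.2 i j hij,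
      hs.le, ?_⟩
    refine hk.le.trans (hcon.trans (Finset.sum_le_sum fun i _ => ?_))
    exact (hst i).le

theorem measurableSet_acStar (hab : a ≤ b) (c d : ℝ) :
    MeasurableSet {p : (ℚ × ℚ → Bool) × C(Icc a b, ℝ) |
      ACStar (ex hab p.2) (KK p.1 ∩ Icc c d)} := by
  have : {p : (ℚ × ℚ → Bool) × C(Icc a b, ℝ) | ACStar (ex hab p.2) (KK p.1 ∩ Icc c d)} =
      ⋂ k : ℕ, ⋃ m : ℕ, ⋂ n : ℕ, (Prod.fst '' TT hab c d n (1 / (m + 1)) (1 / (k + 1)))ᶜ := by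
    ext ⟨e, F⟩
    simp only [mem_ofPred_eq, mem_iInter, mem_iUnion, mem_compl_iff]
    exact acStar_iff hab e F
  rw [this]
  refine MeasurableSet.iInter fun k => MeasurableSet.iUnion fun m => MeasurableSet.iInter fun n => ?_
  exact (isClosedMap_fst_of_compactSpace _ (isClosed_TT hab c d n _ _)).measurableSet.compl

end Q209.DJ
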