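import Pool.Agent.Q209.DJ.Meas

set_option autoImplicit false

/-! Borel measurability of the conditions, continued. -/

namespace Q209.DJ

open Set MeasureTheory Filter Topology
open scoped ENNReal

variable {a b : ℝ}

theorem hasDerivAt_iff' {g : ℝ → ℝ} {v x : ℝ} :
    HasDerivAt g v x ↔ DifferentiableAt ℝ g x ∧ deriv g x = v :=
  ⟨fun h => ⟨h.differentiableAt, h.deriv⟩, fun h => h.2 ▸ h.1.hasDerivAt⟩

theorem measurableSet_ae (hab : a ≤ b) (c d : ℝ) :
    MeasurableSet {p : C(Icc a b, ℝ) × C(Icc a b, ℝ) |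
      ∀ᵐ x ∂(volume.restrict (Icc c d)), HasDerivAt (ex hab p.2) (val hab p.1 x) x} := by
  have h1 : MeasurableSet {q : (C(Icc a b, ℝ) × C(Icc a b, ℝ)) × ℝ |
      ¬ HasDerivAt (ex hab q.1.2) (val hab q.1.1 q.2) q.2} := by
    have e1 : Measurable fun q : (C(Icc a b, ℝ) × C(Icc a b, ℝ)) × ℝ => (q.1.2, q.2) :=
      (measurable_snd.comp measurable_fst).prodMk measurable_snd
    have e2 : Measurable fun q : (C(Icc a b, ℝ) × C(Icc a b, ℝ)) × ℝ => (q.1.1, q.2) :=
      (measurable_fst.comp measurable_fst).prodMk measurable_snd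
    have h2 := e1 (measurableSet_diff hab)
    have h3a : Measurable fun q : (C(Icc a b, ℝ) × C(Icc a b, ℝ)) × ℝ =>
        deriv (ex hab q.1.2) q.2 := Measurable.comp (measurable_derivEx hab) e1
    have h3b : Measurable fun q : (C(Icc a b, ℝ) × C(Icc a b, ℝ)) × ℝ =>
        val hab q.1.1 q.2 := by
      have := (measurable_val hab).comp e2
      rw [Function.comp_def] at this
      exact this
    have h3 : MeasurableSet {q : (C(Icc a b, ℝ) × C(Icc a b, ℝ)) × ℝ |
        deriv (ex hab q.1.2) q.2 = val hab q.1.1 q.2} := measurableSet_eq_fun h3a h3b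
    have : {q : (C(Icc a b, ℝ) × C(Icc a b, ℝ)) × ℝ |
        ¬ HasDerivAt (ex hab q.1.2) (val hab q.1.1 q.2) q.2} =
        ((fun q : (C(Icc a b, ℝ) × C(Icc a b, ℝ)) × ℝ => (q.1.2, q.2)) ⁻¹'
          {p : C(Icc a b, ℝ) × ℝ | DifferentiableAt ℝ (ex hab p.1) p.2} ∩
        {q : (C(Icc a b, ℝ) × C(Icc a b, ℝ)) × ℝ |
          deriv (ex hab q.1.2) q.2 = val hab q.1.1 q.2})ᶜ := by
      ext q
      simp only [mem_ofPred_eq, mem_compl_iff, mem_inter_iff, mem_preimage, hasDerivAt_iff']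
    rw [this]
    exact (h2.inter h3).compl
  have h2 := measurable_measure_prodMk_left (ν := volume.restrict (Icc c d)) h1
  have : {p : C(Icc a b, ℝ) × C(Icc a b, ℝ) |
      ∀ᵐ x ∂(volume.restrict (Icc c d)), HasDerivAt (ex hab p.2) (val hab p.1 x) x} =
      (fun p => (volume.restrict (Icc c d)) (Prod.mk p ⁻¹'
        {q : (C(Icc a b, ℝ) × C(Icc a b, ℝ)) × ℝ |
          ¬ HasDerivAt (ex hab q.1.2) (val hab q.1.1 q.2) q.2})) ⁻¹' {0} := by
    ext p
    simp only [mem_ofPred_eq, mem_preimage, mem_singleton_iff, ae_iff]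
    rfl
  rw [this]
  exact h2 (measurableSet_singleton 0)

theorem mem_rec_iff_rat {g : ℝ → ℝ} (hg : Continuous g) {u : ℚ} {t : ℝ} :
    t ∈ Rec g u ↔ ∀ s : ℚ, u ≤ s → (s : ℝ) ≤ t → g s ≤ g t := by
  constructor
  · intro h s hs hst
    exact h s (by exact_mod_cast hs) hst
  · intro h s hs hst
    rcases eq_or_lt_of_le hst with rfl | hst
    · exact le_rfl
    by_contra hcon
    push Not at hcon
    have h1 : ∀ᶠ s' in 𝓝 s, g t < g s' := (hg.tendsto s).eventually (lt_mem_nhds hcon)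
    obtain ⟨ε, hε, hball⟩ := Metric.mem_nhds_iff.mp h1
    obtain ⟨q, hq1, hq2⟩ := exists_rat_btwn (show s < min t (s + ε) from
      lt_min hst (by linarith))
    have h2 : (q : ℝ) ∈ Metric.ball s ε := by
      rw [Metric.mem_ball, Real.dist_eq, abs_lt]
      have := hq2.trans_le (min_le_right _ _)
      constructor <;> linarith
    have h3 := hball h2
    have h4 := h q (by exact_mod_cast (hs.trans hq1.le)) (hq2.le.trans (min_le_left _ _))
    exact absurd h3 (not_lt.mpr h4)

theorem measurableSet_rec (hab : a ≤ b) (u v : ℚ) :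
    MeasurableSet {p : C(Icc a b, ℝ) × C(Icc a b, ℝ) |
      ENNReal.ofReal (ex hab p.2 v - ex hab p.2 u) ≤
        ∫⁻ t in Icc (u : ℝ) v ∩ Rec (ex hab p.2) u, ‖val hab p.1 t‖ₑ} := by
  have hev : ∀ x : ℝ, Measurable fun p : C(Icc a b, ℝ) × C(Icc a b, ℝ) => ex hab p.2 x := fun x =>
    ((continuous_ex hab).comp (continuous_snd.prodMk continuous_const)).measurable
  have hev' : ∀ x : ℝ, Measurable fun q : (C(Icc a b, ℝ) × C(Icc a b, ℝ)) × ℝ =>
      ex hab q.1.2 x := fun x => (hev x).comp measurable_fst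
  have hev2 : Measurable fun q : (C(Icc a b, ℝ) × C(Icc a b, ℝ)) × ℝ => ex hab q.1.2 q.2 :=
    ((continuous_ex hab).comp ((continuous_snd.comp continuous_fst).prodMk
      continuous_snd)).measurable
  have hRS : MeasurableSet {q : (C(Icc a b, ℝ) × C(Icc a b, ℝ)) × ℝ |
      q.2 ∈ Icc (u : ℝ) v ∩ Rec (ex hab q.1.2) u} := by
    have : {q : (C(Icc a b, ℝ) × C(Icc a b, ℝ)) × ℝ |
        q.2 ∈ Icc (u : ℝ) v ∩ Rec (ex hab q.1.2) u} = Prod.snd ⁻¹' (Icc (u : ℝ) v) ∩
        ⋂ s : ℚ, ⋂ _ : u ≤ s, ({q : (C(Icc a b, ℝ) × C(Icc a b, ℝ)) × ℝ | q.2 < s} ∪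
          {q | ex hab q.1.2 s ≤ ex hab q.1.2 q.2}) := by
      ext q
      simp only [mem_ofPred_eq, mem_inter_iff, mem_preimage, mem_iInter, mem_union,
        mem_rec_iff_rat (continuous_ex_right hab q.1.2)]
      refine and_congr Iff.rfl (forall_congr' fun s => forall_congr' fun _ => ?_)
      rw [← not_le, imp_iff_not_or]
    rw [this]
    refine (measurable_snd measurableSet_Icc).inter (MeasurableSet.iInter fun s =>
      MeasurableSet.iInter fun _ => MeasurableSet.union ?_ ?_)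
    · exact measurableSet_lt measurable_snd measurable_const
    · exact measurableSet_le (hev' s) hev2
  have hf : Measurable fun q : (C(Icc a b, ℝ) × C(Icc a b, ℝ)) × ℝ =>
      {q : (C(Icc a b, ℝ) × C(Icc a b, ℝ)) × ℝ |
        q.2 ∈ Icc (u : ℝ) v ∩ Rec (ex hab q.1.2) u}.indicator
        (fun q => ‖val hab q.1.1 q.2‖ₑ) q := by
    refine Measurable.indicator ?_ hRS
    exact ((measurable_val hab).comp ((measurable_fst.comp measurable_fst).prodMk
      measurable_snd)).enorm
  have hI := hf.lintegral_prod_right' (ν := volume)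
  refine measurableSet_le ((hev v).sub (hev u)).ennreal_ofReal ?_
  have heq : (fun p : C(Icc a b, ℝ) × C(Icc a b, ℝ) =>
      ∫⁻ t in Icc (u : ℝ) v ∩ Rec (ex hab p.2) u, ‖val hab p.1 t‖ₑ) = fun p =>
      ∫⁻ t, {q : (C(Icc a b, ℝ) × C(Icc a b, ℝ)) × ℝ |
        q.2 ∈ Icc (u : ℝ) v ∩ Rec (ex hab q.1.2) u}.indicator
        (fun q => ‖val hab q.1.1 q.2‖ₑ) (p, t) := by
    ext p
    rw [← lintegral_indicator (Rec.isClosed (continuous_ex_right hab p.2).continuousOn).measurableSet]
    rfl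
  rw [heq]
  exact hI

theorem measurableSet_WC (hab : a ≤ b) (c d : ℝ) :
    MeasurableSet {p : C(Icc a b, ℝ) × C(Icc a b, ℝ) | WC (ex hab p.2) (val hab p.1) c d} := by
  have hneg : Measurable fun p : C(Icc a b, ℝ) × C(Icc a b, ℝ) => (p.1, -p.2) :=
    (continuous_fst.prodMk continuous_snd.neg).measurable
  have : {p : C(Icc a b, ℝ) × C(Icc a b, ℝ) | WC (ex hab p.2) (val hab p.1) c d} =
      {p : C(Icc a b, ℝ) × C(Icc a b, ℝ) |
        ∀ᵐ x ∂(volume.restrict (Icc c d)), HasDerivAt (ex hab p.2) (val hab p.1 x) x} ∩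
      ⋂ u : ℚ, ⋂ v : ℚ, ⋂ _ : c ≤ u, ⋂ _ : (u : ℝ) < v, ⋂ _ : v ≤ d,
        ({p : C(Icc a b, ℝ) × C(Icc a b, ℝ) |
          ENNReal.ofReal (ex hab p.2 v - ex hab p.2 u) ≤
            ∫⁻ t in Icc (u : ℝ) v ∩ Rec (ex hab p.2) u, ‖val hab p.1 t‖ₑ} ∩
        (fun p : C(Icc a b, ℝ) × C(Icc a b, ℝ) => (p.1, -p.2)) ⁻¹'
          {p : C(Icc a b, ℝ) × C(Icc a b, ℝ) |
            ENNReal.ofReal (ex hab p.2 v - ex hab p.2 u) ≤
              ∫⁻ t in Icc (u : ℝ) v ∩ Rec (ex hab p.2) u, ‖val hab p.1 t‖ₑ}) := by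
    ext p
    have e1 : ex hab (-p.2) = fun x => -ex hab p.2 x := rfl
    simp only [WC, mem_ofPred_eq, mem_inter_iff, mem_iInter, mem_preimage, e1, neg_sub_neg]
  rw [this]
  refine (measurableSet_ae hab c d).inter (MeasurableSet.iInter fun u => MeasurableSet.iInter
    fun v => MeasurableSet.iInter fun _ => MeasurableSet.iInter fun _ => MeasurableSet.iInter
    fun _ => (measurableSet_rec hab u v).inter (hneg (measurableSet_rec hab u v)))

/-- the codes of witnesses, without the point -/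
abbrev Cd (a b : ℝ) : Type :=
  C(Icc a b, ℝ) × ((ℚ × ℚ → Bool) × (ℚ × ℚ → C(Icc a b, ℝ)))

/-- endpoints of the interval with index `r` -/
noncomputable def lo (a : ℝ) (r : ℚ × ℚ) : ℝ := max a r.1
noncomputable def hi (b : ℝ) (r : ℚ × ℚ) : ℝ := min b r.2

/-- `F` extends the partial integral to the interval with index `r` -/
def Ext (hab : a ≤ b) (r : ℚ × ℚ) (p : Cd a b) (F : C(Icc a b, ℝ)) : Prop :=
  ex hab F (lo a r) = 0 ∧
  (∀ x : ℝ, ex hab F x = ex hab F (max (lo a r) (min x (hi b r)))) ∧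
  (∀ᵐ x ∂(volume.restrict (Icc (lo a r) (hi b r))), HasDerivAt (ex hab F) (val hab p.1 x) x) ∧
  (∀ s : ℚ × ℚ, p.2.1 s = true → ∀ x ∈ Icc (max (lo a r) (lo a s)) (min (hi b r) (hi b s)),
    ∀ y ∈ Icc (max (lo a r) (lo a s)) (min (hi b r) (hi b s)),
    ex hab (p.2.2 s) x - ex hab (p.2.2 s) y = ex hab F x - ex hab F y) ∧
  ACStar (ex hab F) (KK p.2.1 ∩ Icc (lo a r) (hi b r))

theorem measurableSet_Ext (hab : a ≤ b) (r : ℚ × ℚ) :
    MeasurableSet {q : Cd a b × C(Icc a b, ℝ) | Ext hab r q.1 q.2} := by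
  have hev : ∀ x : ℝ, Continuous fun q : Cd a b × C(Icc a b, ℝ) => ex hab q.2 x := fun x =>
    (continuous_ex hab).comp (continuous_snd.prodMk continuous_const)
  have hevs : ∀ (s : ℚ × ℚ) (x : ℝ), Continuous fun q : Cd a b × C(Icc a b, ℝ) =>
      ex hab (q.1.2.2 s) x := fun s x => by
    have h1 : Continuous fun q : Cd a b × C(Icc a b, ℝ) => q.1.2.2 s :=
      (continuous_apply s).comp (continuous_snd.comp (continuous_snd.comp continuous_fst))
    exact (continuous_ex hab).comp (h1.prodMk continuous_const)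
  simp only [Ext, ofPred_and]
  refine MeasurableSet.inter ?_ (MeasurableSet.inter ?_ (MeasurableSet.inter ?_
    (MeasurableSet.inter ?_ ?_)))
  · exact (isClosed_eq (hev _) continuous_const).measurableSet
  · simp only [ofPred_forall]
    exact (isClosed_iInter fun x => isClosed_eq (hev _) (hev _)).measurableSet
  · have : Measurable fun q : Cd a b × C(Icc a b, ℝ) => (q.1.1, q.2) :=
      (measurable_fst.comp measurable_fst).prodMk measurable_snd
    exact this (measurableSet_ae hab (lo a r) (hi b r))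
  · simp only [ofPred_forall]
    refine MeasurableSet.iInter fun s => ?_
    have : {q : Cd a b × C(Icc a b, ℝ) | q.1.2.1 s = true →
        ∀ x ∈ Icc (max (lo a r) (lo a s)) (min (hi b r) (hi b s)),
        ∀ y ∈ Icc (max (lo a r) (lo a s)) (min (hi b r) (hi b s)),
        ex hab (q.1.2.2 s) x - ex hab (q.1.2.2 s) y = ex hab q.2 x - ex hab q.2 y} =
        {q : Cd a b × C(Icc a b, ℝ) | q.1.2.1 s = false} ∪
        ⋂ x ∈ Icc (max (lo a r) (lo a s)) (min (hi b r) (hi b s)),
        ⋂ y ∈ Icc (max (lo a r) (lo a s)) (min (hi b r) (hi b s)),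
        {q : Cd a b × C(Icc a b, ℝ) |
          ex hab (q.1.2.2 s) x - ex hab (q.1.2.2 s) y = ex hab q.2 x - ex hab q.2 y} := by
      ext q
      simp only [mem_ofPred_eq, mem_union, mem_iInter]
      cases h : q.1.2.1 s <;> simp
    rw [this]
    refine MeasurableSet.union ?_ ?_
    · refine (isClosed_eq ?_ continuous_const).measurableSet
      exact (continuous_apply s).comp (continuous_fst.comp (continuous_snd.comp continuous_fst))
    · refine (isClosed_biInter fun x _ => isClosed_biInter fun y _ => ?_).measurableSet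
      exact isClosed_eq ((hevs s x).sub (hevs s y)) ((hev x).sub (hev y))
  · have : Measurable fun q : Cd a b × C(Icc a b, ℝ) => (q.1.2.1, q.2) :=
      (measurable_fst.comp (measurable_snd.comp measurable_fst)).prodMk measurable_snd
    exact this (measurableSet_acStar hab (lo a r) (hi b r))

theorem Ext.unique (hab : a < b) {r : ℚ × ℚ} (hr : lo a r < hi b r) {p : Cd a b}
    {F G : C(Icc a b, ℝ)} (hF : Ext hab.le r p F) (hG : Ext hab.le r p G) : F = G := by
  obtain ⟨hF1, hF2, hF3, hF4, hF5⟩ := hF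
  obtain ⟨hG1, hG2, hG3, hG4, hG5⟩ := hG
  have hcF := continuous_ex_right hab.le F
  have hcG := continuous_ex_right hab.le G
  let H : ℝ → ℝ := fun x => ex hab.le G x - ex hab.le F x
  have hHc : Continuous H := hcG.sub hcF
  set c := lo a r with hc
  set d := hi b r with hd
  have hac : a ≤ c := le_max_left _ _
  have hdb : d ≤ b := min_le_left _ _
  have hAF : ACon (ex hab.le F) (KK p.2.1 ∩ Icc c d) := hF5.aCon hcF.continuousOn inter_subset_right
  have hAG : ACon (ex hab.le G) (KK p.2.1 ∩ Icc c d) := hG5.aCon hcG.continuousOn inter_subset_right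
  have hAH : ACon H (KK p.2.1 ∩ Icc c d) := ACgen.add hAG hAF fun x _ y _ _ => by
    have : H y - H x = (ex hab.le G y - ex hab.le G x) - (ex hab.le F y - ex hab.le F x) := by
      simp only [H]; ring
    rw [this]
    exact abs_sub _ _
  -- the image of the complement of `K` is countable
  have hcount : (H '' (Icc c d \ KK p.2.1)).Countable := by
    have hsub : H '' (Icc c d \ KK p.2.1) ⊆ ⋃ s : ℚ × ℚ,
        H '' {x | p.2.1 s = true ∧ x ∈ Icc (max c (lo a s)) (min d (hi b s))} := by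
      rintro _ ⟨x, ⟨hx, hxK⟩, rfl⟩
      simp only [KK, mem_ofPred_eq, not_forall, not_not] at hxK
      obtain ⟨s, hs, hs1, hs2⟩ := hxK
      refine mem_iUnion.mpr ⟨s, x, ⟨hs, ?_, ?_⟩, rfl⟩
      · exact max_le hx.1 (max_le (hac.trans hx.1) hs1.le)
      · exact le_min hx.2 (le_min (hx.2.trans hdb) hs2.le)
    refine (countable_iUnion fun s => ?_).mono hsub
    refine Set.Subsingleton.countable ?_
    rintro _ ⟨x, ⟨hs, hx⟩, rfl⟩ _ ⟨y, ⟨-, hy⟩, rfl⟩
    have h1 := hF4 s hs x hx y hy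
    have h2 := hG4 s hs x hx y hy
    simp only [H]
    linarith
  have hN : ∀ N ⊆ Icc c d, volume N = 0 → volume (H '' N) = 0 := by
    intro N hN h0
    have h1 : volume (H '' (N ∩ (KK p.2.1 ∩ Icc c d))) = 0 := by
      refine hAH.null inter_subset_right (measure_mono_null inter_subset_left h0)
        (A := c - 1) (B := d + 1) fun x hx => ?_
      have := hN hx.1
      exact ⟨by linarith [this.1], by linarith [this.2]⟩
    refine measure_mono_null ?_ (measure_union_null h1 (hcount.measure_zero volume))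
    rw [← image_union]
    refine image_mono fun x hx => ?_
    by_cases hxK : x ∈ KK p.2.1
    · exact Or.inl ⟨hx, hxK, hN hx⟩
    · exact Or.inr ⟨hN hx, hxK⟩
  have hder : ∀ᵐ x ∂(volume.restrict (Icc c d)), HasDerivAt H 0 x := by
    filter_upwards [hF3, hG3] with x h1 h2
    have := h2.sub h1
    rwa [sub_self] at this
  have hconst : ∀ x ∈ Icc c d, H x = 0 := by
    intro x hx
    have h1 : H c = H x := by
      have hsub : Icc c x ⊆ Icc c d := Icc_subset_Icc le_rfl hx.2
      exact eq_of_null hx.1 hHc.continuousOn (fun N hN' => hN N (hN'.trans hsub))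
        (ae_restrict_of_ae_restrict_of_subset hsub hder)
    rw [← h1]
    simp only [H]
    rw [hF1, hG1, sub_zero]
  ext ⟨x, hx⟩
  have h1 : max c (min x d) ∈ Icc c d := ⟨le_max_left _ _, max_le hr.le (min_le_right _ _)⟩
  have h2 := hconst _ h1
  simp only [H] at h2
  rw [← ex_of_mem hab.le F hx, ← ex_of_mem hab.le G hx, hF2 x, hG2 x]
  linarith

instance instStandardBorelCd (a b : ℝ) : StandardBorelSpace (Cd a b) := inferInstance

instance instStandardBorelCd' (a b : ℝ) : StandardBorelSpace (Cd a b × C(Icc a b, ℝ)) :=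
  inferInstance

theorem countablySeparated (α : Type*) [MeasurableSpace α] [StandardBorelSpace α] :
    MeasurableSpace.CountablySeparated α := inferInstance

theorem measurableSet_exists_Ext (hab : a < b) {r : ℚ × ℚ} (hr : lo a r < hi b r) :
    MeasurableSet {p : Cd a b | ∃ F, Ext hab.le r p F} := by
  have : {p : Cd a b | ∃ F, Ext hab.le r p F} =
      Prod.fst '' {q : Cd a b × C(Icc a b, ℝ) | Ext hab.le r q.1 q.2} := by
    ext p
    constructor
    · rintro ⟨F, hF⟩; exact ⟨(p, F), hF, rfl⟩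
    · rintro ⟨⟨p', F⟩, hF, rfl⟩; exact ⟨F, hF⟩
  rw [this]
  have := countablySeparated (Cd a b)
  refine (measurableSet_Ext hab.le r).image_of_measurable_injOn measurable_fst ?_
  rintro ⟨p, F⟩ hF ⟨p', G⟩ hG h
  simp only at h
  subst h
  have h2 : F = G := Ext.unique hab hr hF hG
  rw [h2]

end Q209.DJ
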