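import Pool.Agent.Q209.DJ.Defs
import Pool.Agent.Q209.DJ.Comp

set_option autoImplicit false

/-! Property (N). -/

namespace Q209.DJ

open Set MeasureTheory Filter Topology
open scoped ENNReal

theorem exists_pair {T : Set ℝ} (hT : T.Nonempty) {H : ℝ → ℝ} {M : ℝ}
    (hM : ∀ x ∈ T, ∀ y ∈ T, |H x - H y| ≤ M) {η : ℝ} (hη : 0 < η) :
    ∃ x ∈ T, ∃ y ∈ T, x ≤ y ∧ volume (H '' T) ≤ ENNReal.ofReal (|H y - H x| + η) := by
  obtain ⟨t0, ht0⟩ := hT
  have hne : (H '' T).Nonempty := ⟨_, t0, ht0, rfl⟩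
  have hba : BddAbove (H '' T) := by
    refine ⟨H t0 + M, ?_⟩
    rintro _ ⟨x, hx, rfl⟩
    have := hM x hx t0 ht0
    have := (abs_le.mp this).2
    linarith
  have hbb : BddBelow (H '' T) := by
    refine ⟨H t0 - M, ?_⟩
    rintro _ ⟨x, hx, rfl⟩
    have := hM x hx t0 ht0
    have := (abs_le.mp this).1
    linarith
  obtain ⟨_, ⟨u, hu, rfl⟩, hu'⟩ := exists_lt_of_lt_csSup hne
    (show sSup (H '' T) - η / 2 < sSup (H '' T) by linarith)
  obtain ⟨_, ⟨v, hv, rfl⟩, hv'⟩ := exists_lt_of_csInf_lt hne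
    (show sInf (H '' T) < sInf (H '' T) + η / 2 by linarith)
  have hsub : H '' T ⊆ Icc (sInf (H '' T)) (sSup (H '' T)) :=
    fun y hy => ⟨csInf_le hbb hy, le_csSup hba hy⟩
  have hvol : volume (H '' T) ≤ ENNReal.ofReal (|H u - H v| + η) := by
    refine (measure_mono hsub).trans ?_
    rw [Real.volume_Icc]
    refine ENNReal.ofReal_le_ofReal ?_
    have := le_abs_self (H u - H v)
    linarith
  rcases le_total v u with h | h
  · exact ⟨v, hv, u, hu, h, hvol⟩
  · refine ⟨u, hu, v, hv, h, ?_⟩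
    rwa [abs_sub_comm]

theorem ACon.null {H : ℝ → ℝ} {S : Set ℝ} (h : ACon H S) {N : Set ℝ} (hNS : N ⊆ S)
    (hN : volume N = 0) {A B : ℝ} (hAB : N ⊆ Ioo A B) : volume (H '' N) = 0 := by
  suffices hs : ∀ ε : ℝ, 0 < ε → volume (H '' N) ≤ ENNReal.ofReal ε by
    refine le_antisymm (le_of_forall_pos_le_add ?_) bot_le
    intro ε hε
    rcases eq_or_ne ε ⊤ with rfl | hε'
    · simp
    · have := hs ε.toReal (ENNReal.toReal_pos hε.ne' hε')
      rwa [ENNReal.ofReal_toReal hε', ← zero_add ε] at this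
  intro ε hε
  obtain ⟨δ, hδ, hfam⟩ := ACgen.finset h (show 0 < ε / 2 by linarith)
  obtain ⟨O', hO'N, hO', hO'v⟩ := N.exists_isOpen_lt_of_lt (μ := volume) (ENNReal.ofReal δ)
    (by rw [hN]; exact ENNReal.ofReal_pos.mpr hδ)
  let O := O' ∩ Ioo A B
  have hO : IsOpen O := hO'.inter isOpen_Ioo
  have hON : N ⊆ O := subset_inter hO'N hAB
  have hOv : volume O < ENNReal.ofReal δ := (measure_mono inter_subset_left).trans_lt hO'v
  obtain ⟨ι, hι, l, r, hlr, hOeq, hdisj, hl, hr⟩ := exists_components O hO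
    ⟨A, fun x hx => hx.2.1.le⟩ ⟨B, fun x hx => hx.2.2.le⟩
  -- total length of finitely many components
  have hlen : ∀ I : Finset ι, ∑ i ∈ I, (r i - l i) < δ := by
    intro I
    have h1 : ∑ i ∈ I, volume (Ioo (l i) (r i)) ≤ volume O := by
      rw [← measure_biUnion_finset (fun i _ j _ hij => hdisj hij) (fun i _ => measurableSet_Ioo)]
      refine measure_mono ?_
      rw [hOeq]
      exact iUnion₂_subset fun i _ => subset_iUnion (fun i => Ioo (l i) (r i)) i
    have h2 : ∑ i ∈ I, volume (Ioo (l i) (r i)) = ENNReal.ofReal (∑ i ∈ I, (r i - l i)) := by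
      rw [ENNReal.ofReal_sum_of_nonneg fun i _ => (sub_pos.mpr (hlr i)).le]
      simp
    rw [h2] at h1
    exact (ENNReal.ofReal_lt_ofReal_iff hδ).mp (h1.trans_lt hOv)
  -- non-overlapping
  have hsep : ∀ i j, i ≠ j → ∀ x ∈ Ioo (l i) (r i), ∀ y ∈ Ioo (l i) (r i),
      ∀ z ∈ Ioo (l j) (r j), ∀ w ∈ Ioo (l j) (r j), y ≤ z ∨ w ≤ x := by
    intro i j hij x hx y hy z hz w hw
    have hd := Set.disjoint_left.mp (hdisj hij)
    by_contra hcon
    push Not at hcon
    obtain ⟨h1, h2⟩ := hcon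
    -- z < y and x < w
    have h3 : max x z ∈ Ioo (l i) (r i) := ⟨lt_max_of_lt_left hx.1, max_lt hx.2 (h1.trans hy.2)⟩
    have h4 : max x z ∈ Ioo (l j) (r j) := ⟨lt_max_of_lt_right hz.1, max_lt (h2.trans hw.2) hz.2⟩
    exact hd h3 h4
  -- bound on one component
  have hone : ∀ i, ∀ x ∈ N ∩ Ioo (l i) (r i), ∀ y ∈ N ∩ Ioo (l i) (r i),
      |H x - H y| ≤ ε / 2 := by
    have aux : ∀ i, ∀ x ∈ N ∩ Ioo (l i) (r i), ∀ y ∈ N ∩ Ioo (l i) (r i), x ≤ y →
        |H y - H x| ≤ ε / 2 := by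
      intro i x hx y hy hxy
      have := hfam (ι := ι) {i} (fun _ => x) (fun _ => y)
        (fun _ _ => ⟨hNS hx.1, hNS hy.1, hxy⟩) (by
          intro a ha b hb hab
          rw [Finset.mem_singleton] at ha hb
          exact absurd (ha.trans hb.symm) hab) (by
          rw [Finset.sum_singleton]
          have := hlen {i}
          rw [Finset.sum_singleton] at this
          linarith [hx.2.1, hy.2.2])
      rw [Finset.sum_singleton] at this
      exact this.le
    intro i x hx y hy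
    rcases le_total x y with hxy | hxy
    · rw [abs_sub_comm]; exact aux i x hx y hy hxy
    · exact aux i y hy x hx hxy
  have hcover : H '' N ⊆ ⋃ i, H '' (N ∩ Ioo (l i) (r i)) := by
    rintro _ ⟨x, hx, rfl⟩
    have : x ∈ ⋃ i, Ioo (l i) (r i) := hOeq ▸ hON hx
    obtain ⟨i, hi⟩ := mem_iUnion.mp this
    exact mem_iUnion.mpr ⟨i, x, ⟨hx, hi⟩, rfl⟩
  refine (measure_mono hcover).trans ((measure_iUnion_le _).trans ?_)
  rw [ENNReal.tsum_eq_iSup_sum]
  refine iSup_le fun I => ?_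
  classical
  let I' := I.filter fun i => (N ∩ Ioo (l i) (r i)).Nonempty
  have hI' : ∑ i ∈ I, volume (H '' (N ∩ Ioo (l i) (r i))) =
      ∑ i ∈ I', volume (H '' (N ∩ Ioo (l i) (r i))) := by
    symm
    refine Finset.sum_subset (Finset.filter_subset _ _) fun i hi hi' => ?_
    have : N ∩ Ioo (l i) (r i) = ∅ := by
      rw [← Set.not_nonempty_iff_eq_empty]
      intro hh
      exact hi' (Finset.mem_filter.mpr ⟨hi, hh⟩)
    simp [this]
  rw [hI']
  have hη : 0 < ε / 2 / (I'.card + 1) := by positivity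
  have hch : ∀ i : ι, ∃ p : ℝ × ℝ, (N ∩ Ioo (l i) (r i)).Nonempty →
      p.1 ∈ N ∩ Ioo (l i) (r i) ∧ p.2 ∈ N ∩ Ioo (l i) (r i) ∧ p.1 ≤ p.2 ∧
      volume (H '' (N ∩ Ioo (l i) (r i))) ≤
        ENNReal.ofReal (|H p.2 - H p.1| + ε / 2 / (I'.card + 1)) := by
    intro i
    by_cases hi : (N ∩ Ioo (l i) (r i)).Nonempty
    · obtain ⟨x, hx, y, hy, hxy, hv⟩ := exists_pair hi (hone i) hη
      exact ⟨(x, y), fun _ => ⟨hx, hy, hxy, hv⟩⟩
    · exact ⟨(0, 0), fun hh => absurd hh hi⟩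
  choose p hp using hch
  have hmem : ∀ i ∈ I', (N ∩ Ioo (l i) (r i)).Nonempty := fun i hi => (Finset.mem_filter.mp hi).2
  have hsum : ∑ i ∈ I', |H (p i).2 - H (p i).1| < ε / 2 := by
    refine hfam I' (fun i => (p i).1) (fun i => (p i).2) ?_ ?_ ?_
    · intro i hi
      obtain ⟨h1, h2, h3, -⟩ := hp i (hmem i hi)
      exact ⟨hNS h1.1, hNS h2.1, h3⟩
    · intro i hi j hj hij
      obtain ⟨h1, h2, h3, -⟩ := hp i (hmem i hi)
      obtain ⟨h1', h2', h3', -⟩ := hp j (hmem j hj)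
      exact hsep i j hij _ h1.2 _ h2.2 _ h1'.2 _ h2'.2
    · refine lt_of_le_of_lt (Finset.sum_le_sum fun i hi => ?_) (hlen I')
      obtain ⟨h1, h2, h3, -⟩ := hp i (hmem i hi)
      linarith [h1.2.1, h2.2.2]
  calc ∑ i ∈ I', volume (H '' (N ∩ Ioo (l i) (r i)))
      ≤ ∑ i ∈ I', ENNReal.ofReal (|H (p i).2 - H (p i).1| + ε / 2 / (I'.card + 1)) :=
        Finset.sum_le_sum fun i hi => (hp i (hmem i hi)).2.2.2
    _ = ENNReal.ofReal (∑ i ∈ I', (|H (p i).2 - H (p i).1| + ε / 2 / (I'.card + 1))) := by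
        rw [ENNReal.ofReal_sum_of_nonneg fun i _ => by positivity]
    _ ≤ ENNReal.ofReal ε := by
        refine ENNReal.ofReal_le_ofReal ?_
        rw [Finset.sum_add_distrib, Finset.sum_const, nsmul_eq_mul]
        have : (I'.card : ℝ) * (ε / 2 / (I'.card + 1)) ≤ ε / 2 := by
          rw [mul_div_assoc', div_le_iff₀ (by positivity)]
          nlinarith
        linarith

/-- a continuous function with zero derivative almost everywhere, which maps null sets to null
sets, is constant -/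
theorem eq_of_null {H : ℝ → ℝ} {s t : ℝ} (hst : s ≤ t) (hc : ContinuousOn H (Icc s t))
    (hN : ∀ N ⊆ Icc s t, volume N = 0 → volume (H '' N) = 0)
    (hd : ∀ᵐ x ∂(volume.restrict (Icc s t)), HasDerivAt H 0 x) : H s = H t := by
  have h1 : uIcc (H s) (H t) ⊆ H '' Icc s t := by
    have := intermediate_value_uIcc (a := s) (b := t) (f := H) (by rwa [uIcc_of_le hst])
    rwa [uIcc_of_le hst] at this
  let D : Set ℝ := {x | HasDerivAt H 0 x}
  have h2 : volume (H '' (Icc s t ∩ D)) = 0 := by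
    refine addHaar_image_eq_zero_of_det_fderivWithin_eq_zero volume
      (f' := fun _ => (0 : ℝ →L[ℝ] ℝ)) (fun x hx => ?_) (fun x hx => ?_)
    · have : HasDerivAt H 0 x := hx.2
      have := this.hasFDerivAt.hasFDerivWithinAt (s := Icc s t ∩ D)
      simpa using this
    · simp
  have h3 : volume (H '' (Icc s t \ D)) = 0 := by
    refine hN _ sdiff_subset ?_
    rw [ae_restrict_iff' measurableSet_Icc, ae_iff] at hd
    refine measure_mono_null ?_ hd
    intro x hx
    simp only [mem_ofPred_eq, Classical.not_imp]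
    exact ⟨hx.1, hx.2⟩
  have h4 : volume (uIcc (H s) (H t)) = 0 := by
    refine measure_mono_null (h1.trans ?_) (measure_union_null h2 h3)
    rw [← image_union]
    exact image_mono fun x hx => by
      by_cases h : x ∈ D
      · exact Or.inl ⟨hx, h⟩
      · exact Or.inr ⟨hx, h⟩
  rw [Real.volume_interval, ENNReal.ofReal_eq_zero] at h4
  have := abs_nonpos_iff.mp h4
  linarith

end Q209.DJ
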