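import Pool.Agent.Q209.DJ.Uniq

set_option autoImplicit false

/-! The main estimate on a portion. -/

namespace Q209.DJ

open Set MeasureTheory Filter Topology
open scoped ENNReal

theorem portion_aCon {F G f : ℝ → ℝ} {c d : ℝ} {S : Set ℝ} (hFc : ContinuousOn F (Icc c d))
    (hGc : ContinuousOn G (Icc c d))
    (hF : ∀ᵐ x ∂(volume.restrict (Icc c d)), HasDerivAt F (f x) x) (hG : WC G f c d)
    (hS : IsClosed S) (hne : S.Nonempty) (hSs : S ⊆ Icc c d)
    (hV : ∀ (ι : Type) (I : Finset ι) (c' d' : ι → ℝ), (∀ i ∈ I, c' i ∈ S ∧ d' i ∈ S ∧ c' i ≤ d' i) →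
      (∀ i ∈ I, ∀ j ∈ I, i ≠ j → d' i ≤ c' j ∨ d' j ≤ c' i) → ∑ i ∈ I, osc F (c' i) (d' i) ≤ 1)
    (hloc : ∀ l ∈ S, ∀ r ∈ S, Disjoint (Ioo l r) S →
      ∀ x ∈ Ioo l r, ∀ y ∈ Ioo l r, G x - G y = F x - F y) :
    ACon G S := by
  have hb1 : BddBelow S := ⟨c, fun x hx => (hSs hx).1⟩
  have hb2 : BddAbove S := ⟨d, fun x hx => (hSs hx).2⟩
  have hm1 : sInf S ∈ S := hS.csInf_mem hne hb1
  have hm2 : sSup S ∈ S := hS.csSup_mem hne hb2
  set xs := sInf S with hxs
  set ys := sSup S with hys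
  have hSI : S ⊆ Icc xs ys := fun x hx => ⟨csInf_le hb1 hx, le_csSup hb2 hx⟩
  have hO : IsOpen (Ioo xs ys \ S) := isOpen_Ioo.sdiff hS
  obtain ⟨ι, hι, l, r, hlr, hOeq, hdisj, hl, hr⟩ := exists_components (Ioo xs ys \ S) hO
    ⟨xs, fun x hx => hx.1.1.le⟩ ⟨ys, fun x hx => hx.1.2.le⟩
  have hsub : ∀ k, Ioo (l k) (r k) ⊆ Ioo xs ys \ S := by
    intro k; rw [hOeq]; exact subset_iUnion (fun k => Ioo (l k) (r k)) k
  have hle1 : ∀ k, xs ≤ l k := by
    intro k
    by_contra hcon
    push Not at hcon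
    have : (l k + min xs (r k)) / 2 ∈ Ioo (l k) (r k) := by
      have h1 : l k < min xs (r k) := lt_min hcon (hlr k)
      have h2 : min xs (r k) ≤ r k := min_le_right _ _
      constructor <;> linarith
    have h3 := (hsub k this).1.1
    have h1 : l k < min xs (r k) := lt_min hcon (hlr k)
    have h2 : min xs (r k) ≤ xs := min_le_left _ _
    linarith
  have hle2 : ∀ k, r k ≤ ys := by
    intro k
    by_contra hcon
    push Not at hcon
    have : (r k + max ys (l k)) / 2 ∈ Ioo (l k) (r k) := by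
      have h1 : max ys (l k) < r k := max_lt hcon (hlr k)
      have h2 : l k ≤ max ys (l k) := le_max_right _ _
      constructor <;> linarith
    have h3 := (hsub k this).1.2
    have h1 : max ys (l k) < r k := max_lt hcon (hlr k)
    have h2 : ys ≤ max ys (l k) := le_max_left _ _
    linarith
  have hlS : ∀ k, l k ∈ S := by
    intro k
    by_contra hcon
    rcases eq_or_lt_of_le (hle1 k) with h | h
    · rw [← h] at hcon; exact hcon hm1
    · exact hl k ⟨⟨h, (hlr k).trans_le (hle2 k)⟩, hcon⟩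
  have hrS : ∀ k, r k ∈ S := by
    intro k
    by_contra hcon
    rcases eq_or_lt_of_le (hle2 k) with h | h
    · rw [h] at hcon; exact hcon hm2
    · exact hr k ⟨⟨(hle1 k).trans_lt (hlr k), h⟩, hcon⟩
  have hkS : ∀ k, Disjoint (Ioo (l k) (r k)) S := fun k =>
    Set.disjoint_left.mpr fun x hx => (hsub k hx).2
  have hsep : ∀ i j, i ≠ j → r i ≤ l j ∨ r j ≤ l i := by
    intro i j hij
    have hd := Set.disjoint_left.mp (hdisj hij)
    by_contra hcon
    push Not at hcon
    obtain ⟨h1, h2⟩ := hcon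
    have h3 : max (l i) (l j) < min (r i) (r j) :=
      max_lt (lt_min (hlr i) h2) (lt_min h1 (hlr j))
    obtain ⟨z, hz1, hz2⟩ := exists_between h3
    exact hd ⟨(le_max_left _ _).trans_lt hz1, hz2.trans_le (min_le_left _ _)⟩
      ⟨(le_max_right _ _).trans_lt hz1, hz2.trans_le (min_le_right _ _)⟩
  have hsum : ∑' k, ENNReal.ofReal (osc F (l k) (r k)) ≤ 1 := by
    rw [ENNReal.tsum_eq_iSup_sum]
    refine iSup_le fun I => ?_
    rw [← ENNReal.ofReal_sum_of_nonneg fun i _ => osc_nonneg _ _, ← ENNReal.ofReal_one]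
    exact ENNReal.ofReal_le_ofReal (hV ι I l r (fun i _ => ⟨hlS i, hrS i, (hlr i).le⟩)
      fun i _ j _ hij => hsep i j hij)
  -- the density
  let C : ι → ℝ≥0∞ := fun k => ENNReal.ofReal (osc F (l k) (r k) / (r k - l k))
  have hC : ∀ k, C k * volume (Ioo (l k) (r k)) = ENNReal.ofReal (osc F (l k) (r k)) := by
    intro k
    have hpos : 0 < r k - l k := sub_pos.mpr (hlr k)
    rw [Real.volume_Ioo, ← ENNReal.ofReal_mul (div_nonneg (osc_nonneg _ _) hpos.le),
      div_mul_cancel₀ _ hpos.ne']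
  let w1 : ℝ → ℝ≥0∞ := S.indicator fun t => ‖deriv G t‖ₑ
  let w2 : ℝ → ℝ≥0∞ := fun t => ∑' k, (Ioo (l k) (r k)).indicator (fun _ => C k) t
  have hw1 : Measurable w1 := (measurable_deriv G).enorm.indicator hS.measurableSet
  have hw2' : ∀ k, Measurable ((Ioo (l k) (r k)).indicator fun _ : ℝ => C k) := fun k =>
    measurable_const.indicator measurableSet_Ioo
  have hw1int : ∫⁻ t, w1 t ≠ ⊤ := by
    rw [lintegral_indicator hS.measurableSet]
    have h1 : ∫⁻ t in S, ‖deriv G t‖ₑ = ∫⁻ t in S, ‖f t‖ₑ :=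
      lintegral_congr_ae ((ae_restrict_of_ae_restrict_of_subset hSs hG.1).mono fun x hx => by
        simp only [hx.deriv])
    rw [h1]
    refine lintegral_ne_top hF hS hne hSs fun n c' d' hp => ?_
    refine le_trans (Finset.sum_le_sum fun i _ => ?_) (hV (Fin n) Finset.univ c' d'
      (fun i _ => hp.1 i) (fun i _ j _ hij => hp.2 i j hij))
    exact le_osc (hFc.mono (Icc_subset_Icc (hSs (hp.1 i).1).1 (hSs (hp.1 i).2.1).2))
      ⟨(hp.1 i).2.2, le_rfl⟩ ⟨le_rfl, (hp.1 i).2.2⟩
  have hw2int : ∫⁻ t, w2 t ≠ ⊤ := by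
    rw [lintegral_tsum fun k => (hw2' k).aemeasurable]
    have : ∀ k, ∫⁻ t, (Ioo (l k) (r k)).indicator (fun _ => C k) t =
        ENNReal.ofReal (osc F (l k) (r k)) := by
      intro k
      rw [lintegral_indicator measurableSet_Ioo, lintegral_const, Measure.restrict_apply_univ, hC]
    simp_rw [this]
    exact ne_top_of_le_ne_top ENNReal.one_ne_top hsum
  have hwint : ∫⁻ t, (w1 t + w2 t) ≠ ⊤ := by
    rw [lintegral_add_left hw1]
    exact ENNReal.add_ne_top.mpr ⟨hw1int, hw2int⟩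
  -- the estimate over the record sets
  have hrec : ∀ A : Set ℝ, MeasurableSet A → ∀ g : ℝ → ℝ, (∀ x y, |g x - g y| = |G x - G y|) →
      MonotoneOn g A → (∀ x, ‖deriv g x‖ₑ = ‖deriv G x‖ₑ) →
      (∀ x, DifferentiableAt ℝ G x → DifferentiableAt ℝ g x) →
      ∀ x ∈ S, ∀ y ∈ S, A ⊆ Ioo x y → ∫⁻ t in A, ‖f t‖ₑ ≤ ∫⁻ t in Icc x y, (w1 t + w2 t) := by
    intro A hA g hg hmono hder hdiff x hx y hy hAxy
    have hAcd : A ⊆ Icc c d := hAxy.trans (Ioo_subset_Icc_self.trans
      (Icc_subset_Icc (hSs hx).1 (hSs hy).2))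
    have hdA : ∀ᵐ x ∂(volume.restrict A), HasDerivAt G (f x) x :=
      ae_restrict_of_ae_restrict_of_subset hAcd hG.1
    have e1 : ∫⁻ t in A, ‖f t‖ₑ = ∫⁻ t in A, ‖deriv G t‖ₑ :=
      lintegral_congr_ae (hdA.mono fun x hx => by simp only [hx.deriv])
    rw [e1, ← lintegral_inter_add_sdiff _ _ hS.measurableSet, lintegral_add_left hw1]
    refine add_le_add ?_ ?_
    · rw [setLIntegral_indicator hS.measurableSet]
      refine lintegral_mono_set fun z hz => ⟨hz.2, Ioo_subset_Icc_self (hAxy hz.1)⟩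
    · have hAS : A \ S ⊆ ⋃ k, A ∩ Ioo (l k) (r k) := by
        intro z hz
        have : z ∈ Ioo xs ys \ S := by
          refine ⟨⟨?_, ?_⟩, hz.2⟩
          · exact (hSI hx).1.trans_lt (hAxy hz.1).1
          · exact (hAxy hz.1).2.trans_le (hSI hy).2
        rw [hOeq] at this
        obtain ⟨k, hk⟩ := mem_iUnion.mp this
        exact mem_iUnion.mpr ⟨k, hz.1, hk⟩
      refine (lintegral_mono_set hAS).trans ((lintegral_iUnion_le _ _).trans ?_)
      rw [lintegral_tsum fun k => (hw2' k).aemeasurable]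
      refine ENNReal.tsum_le_tsum fun k => ?_
      rcases (A ∩ Ioo (l k) (r k)).eq_empty_or_nonempty with hemp | ⟨z, hzA, hzk⟩
      · rw [hemp]; simp
      · have hxk : x ≤ l k := by
          by_contra hcon
          push Not at hcon
          exact Set.disjoint_left.mp (hkS k) ⟨hcon, (hAxy hzA).1.trans hzk.2⟩ hx
        have hyk : r k ≤ y := by
          by_contra hcon
          push Not at hcon
          exact Set.disjoint_left.mp (hkS k) ⟨hzk.1.trans (hAxy hzA).2, hcon⟩ hy
        have h1 : ∫⁻ t in Icc x y, (Ioo (l k) (r k)).indicator (fun _ => C k) t =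
            ENNReal.ofReal (osc F (l k) (r k)) := by
          rw [setLIntegral_indicator measurableSet_Ioo, inter_eq_self_of_subset_left
            (Ioo_subset_Icc_self.trans (Icc_subset_Icc hxk hyk)), lintegral_const,
            Measure.restrict_apply_univ, hC]
        rw [h1]
        simp_rw [← hder]
        refine (lintegral_mono_le (hA.inter measurableSet_Ioo) (hmono.mono inter_subset_left)
          ?_).trans ?_
        · exact (ae_restrict_of_ae_restrict_of_subset inter_subset_left hdA).mono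
            fun x hx => hdiff x hx.differentiableAt
        · have hbound : ∀ x ∈ A ∩ Ioo (l k) (r k), ∀ y ∈ A ∩ Ioo (l k) (r k),
              |g x - g y| ≤ osc F (l k) (r k) := by
            intro x hx y hy
            rw [hg, hloc _ (hlS k) _ (hrS k) (hkS k) x hx.2 y hy.2]
            exact le_osc (hFc.mono (Icc_subset_Icc (hSs (hlS k)).1 (hSs (hrS k)).2))
              (Ioo_subset_Icc_self hx.2) (Ioo_subset_Icc_self hy.2)
          refine le_of_forall_pos_le_add fun ε hε => ?_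
          rcases eq_or_ne ε ⊤ with rfl | hε'
          · simp
          obtain ⟨x', hx', y', hy', -, hv⟩ := exists_pair (T := A ∩ Ioo (l k) (r k))
            ⟨z, hzA, hzk⟩ hbound
            (ENNReal.toReal_pos hε.ne' hε')
          refine hv.trans ?_
          rw [ENNReal.ofReal_add (abs_nonneg _) ENNReal.toReal_nonneg, ENNReal.ofReal_toReal hε']
          gcongr
          exact hbound y' hy' x' hx'
  refine aCon_of_lintegral hwint ?_
  intro x hx y hy hxy
  rcases eq_or_lt_of_le hxy with rfl | hxy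
  · simp
  have hrat : ∀ u v : ℚ, x < u → (u : ℝ) < v → (v : ℝ) < y →
      ENNReal.ofReal |G v - G u| ≤ ∫⁻ t in Icc x y, (w1 t + w2 t) := by
    intro u v hxu huv hvy
    have hcu : c ≤ u := (hSs hx).1.trans hxu.le
    have hvd : (v : ℝ) ≤ d := hvy.le.trans (hSs hy).2
    obtain ⟨h1, h2⟩ := hG.2 u v hcu huv hvd
    have hsubI : Icc (u : ℝ) v ⊆ Ioo x y := fun z hz => ⟨hxu.trans_le hz.1, hz.2.trans_lt hvy⟩
    have hGuv : ContinuousOn G (Icc (u : ℝ) v) := hGc.mono (Icc_subset_Icc hcu hvd)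
    rcases le_total 0 (G v - G u) with h | h
    · rw [abs_of_nonneg h]
      refine h1.trans (hrec _ (Rec.isClosed hGuv).measurableSet G (fun _ _ => rfl)
        (Rec.monotoneOn G u v) (fun _ => rfl) (fun _ h => h) x hx y hy
        (inter_subset_left.trans hsubI))
    · rw [abs_of_nonpos h, neg_sub]
      refine h2.trans (hrec _ (Rec.isClosed hGuv.fun_neg).measurableSet (fun x => -G x)
        (fun a b => by rw [← abs_neg]; congr 1; ring)
        (Rec.monotoneOn _ u v) (fun z => by rw [deriv.fun_neg, enorm_neg])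
        (fun _ h => h.fun_neg) x hx y hy (inter_subset_left.trans hsubI))
  -- passing to the limit
  rcases eq_or_ne (∫⁻ t in Icc x y, (w1 t + w2 t)) ⊤ with htop | htop
  · rw [htop]; exact le_top
  rw [ENNReal.ofReal_le_iff_le_toReal htop]
  refine le_of_forall_pos_le_add fun ε hε => ?_
  have hGxy : ContinuousOn G (Icc x y) := hGc.mono (Icc_subset_Icc (hSs hx).1 (hSs hy).2)
  have hcx : ∀ᶠ u in 𝓝[>] x, |G u - G x| < ε / 2 := by
    have h1 : ContinuousWithinAt G (Ioi x) x := by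
      have := (hGxy x ⟨le_rfl, hxy.le⟩).mono Ioo_subset_Icc_self
      exact (continuousWithinAt_Ioo_iff_Ioi hxy).mp this
    have := Metric.tendsto_nhds.mp h1 (ε / 2) (by linarith)
    simpa [Real.dist_eq] using this
  have hcy : ∀ᶠ u in 𝓝[<] y, |G u - G y| < ε / 2 := by
    have h1 : ContinuousWithinAt G (Iio y) y := by
      have := (hGxy y ⟨hxy.le, le_rfl⟩).mono Ioo_subset_Icc_self
      exact (continuousWithinAt_Ioo_iff_Iio hxy).mp this
    have := Metric.tendsto_nhds.mp h1 (ε / 2) (by linarith)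
    simpa [Real.dist_eq] using this
  obtain ⟨p, hp, hp'⟩ := mem_nhdsGT_iff_exists_Ioo_subset.mp hcx
  obtain ⟨q, hq, hq'⟩ := mem_nhdsLT_iff_exists_Ioo_subset.mp hcy
  obtain ⟨u, hu1, hu2⟩ := exists_rat_btwn (show x < min p ((x + y) / 2) from
    lt_min hp (by linarith))
  obtain ⟨v, hv1, hv2⟩ := exists_rat_btwn (show max q ((x + y) / 2) < y from
    max_lt hq (by linarith))
  have hu3 : (u : ℝ) < p := hu2.trans_le (min_le_left _ _)
  have hu4 : (u : ℝ) < (x + y) / 2 := hu2.trans_le (min_le_right _ _)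
  have hv3 : q < (v : ℝ) := (le_max_left _ _).trans_lt hv1
  have hv4 : (x + y) / 2 < (v : ℝ) := (le_max_right _ _).trans_lt hv1
  have h1 : |G u - G x| < ε / 2 := hp' ⟨hu1, hu3⟩
  have h2 : |G v - G y| < ε / 2 := hq' ⟨hv3, hv2⟩
  have h3 := hrat u v hu1 (hu4.trans hv4) hv2
  rw [ENNReal.ofReal_le_iff_le_toReal htop] at h3
  have h4 : |G y - G x| ≤ |G v - G u| + |G v - G y| + |G u - G x| := by
    have : G y - G x = (G v - G u) + (-(G v - G y)) + (G u - G x) := by ring
    rw [this]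
    refine (abs_add_le _ _).trans ?_
    gcongr
    refine (abs_add_le _ _).trans ?_
    rw [abs_neg]
  linarith

end Q209.DJ
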