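import Pool.Agent.Q209.DJ.Null

set_option autoImplicit false

/-! Record sets, and the growth of functions with property (N) over their record sets. -/

namespace Q209.DJ

open Set MeasureTheory Filter Topology
open scoped ENNReal

/-- times `t` at which the maximum of `G` over `[u, t]` is attained -/
def Rec (G : ℝ → ℝ) (u : ℝ) : Set ℝ := {t | ∀ s, u ≤ s → s ≤ t → G s ≤ G t}

theorem Rec.monotoneOn (G : ℝ → ℝ) (u v : ℝ) : MonotoneOn G (Icc u v ∩ Rec G u) :=
  fun _ hs _ ht hst => ht.2 _ hs.1.1 hst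

theorem Rec.isClosed {G : ℝ → ℝ} {u v : ℝ} (hG : ContinuousOn G (Icc u v)) :
    IsClosed (Icc u v ∩ Rec G u) := by
  rcases lt_or_ge v u with huv | huv
  · simp [huv]
  have : Icc u v ∩ Rec G u = ⋂ s ∈ Icc u v, {t ∈ Icc u v | G (min s t) ≤ G t} := by
    ext t
    simp only [mem_iInter, mem_inter_iff, mem_ofPred_eq]
    constructor
    · rintro ⟨h1, h2⟩ s hs
      exact ⟨h1, h2 _ (le_min hs.1 h1.1) (min_le_right _ _)⟩
    · intro h
      have h1 := (h u ⟨le_rfl, huv⟩).1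
      refine ⟨h1, fun s hs hst => ?_⟩
      have := (h s ⟨hs, hst.trans h1.2⟩).2
      rwa [min_eq_left hst] at this
  rw [this]
  refine isClosed_biInter fun s hs => ?_
  refine IsClosed.isClosed_le isClosed_Icc ?_ hG
  refine hG.comp (by fun_prop) fun t ht => ⟨le_min hs.1 ht.1, (min_le_right _ _).trans ht.2⟩

/-- the record values -/
theorem Rec.image {G : ℝ → ℝ} {u v : ℝ} (huv : u ≤ v) (hG : ContinuousOn G (Icc u v))
    : Icc (G u) (G v) ⊆ G '' (Icc u v ∩ Rec G u) := by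
  intro y hy
  let Z : Set ℝ := {t ∈ Icc u v | G t = y}
  have hZc : IsClosed Z := by
    have : Z = {t ∈ Icc u v | G t ≤ y} ∩ {t ∈ Icc u v | y ≤ G t} := by
      ext t
      simp only [Z, mem_inter_iff, mem_ofPred_eq]
      constructor
      · rintro ⟨h1, h2⟩; exact ⟨⟨h1, h2.le⟩, h1, h2.ge⟩
      · rintro ⟨⟨h1, h2⟩, -, h3⟩; exact ⟨h1, le_antisymm h2 h3⟩
    rw [this]
    exact (IsClosed.isClosed_le isClosed_Icc hG continuousOn_const).inter
      (IsClosed.isClosed_le isClosed_Icc continuousOn_const hG)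
  have hZne : Z.Nonempty := by
    obtain ⟨t, ht, hty⟩ := intermediate_value_Icc huv hG hy
    exact ⟨t, ht, hty⟩
  have hZb : BddBelow Z := ⟨u, fun t ht => ht.1.1⟩
  have hτ : sInf Z ∈ Z := hZc.csInf_mem hZne hZb
  refine ⟨sInf Z, ⟨hτ.1, ?_⟩, hτ.2⟩
  intro s hs hst
  by_contra hcon
  push Not at hcon
  rw [hτ.2] at hcon
  have hsv : s ≤ v := hst.trans hτ.1.2
  obtain ⟨s', hs', hs'y⟩ := intermediate_value_Icc hs (hG.mono (Icc_subset_Icc le_rfl hsv))
    (show y ∈ Icc (G u) (G s) from ⟨hy.1, hcon.le⟩)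
  have h1 : sInf Z ≤ s' := csInf_le hZb ⟨⟨hs'.1, hs'.2.trans hsv⟩, hs'y⟩
  have h2 : s' = s := le_antisymm hs'.2 (hst.trans h1)
  rw [← h2, hs'y] at hcon
  exact lt_irrefl _ hcon

/-- image measure inequality -/
theorem volume_image_le {G f : ℝ → ℝ} {c d : ℝ} (hN : ∀ N ⊆ Icc c d, volume N = 0 →
    volume (G '' N) = 0) (hd : ∀ᵐ x ∂(volume.restrict (Icc c d)), HasDerivAt G (f x) x)
    {A : Set ℝ} (hA : MeasurableSet A) (hAs : A ⊆ Icc c d) :
    volume (G '' A) ≤ ∫⁻ t in A, ‖f t‖ₑ := by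
  let D : Set ℝ := {x | DifferentiableAt ℝ G x}
  have hD : MeasurableSet D := measurableSet_of_differentiableAt ℝ G
  have hdA : ∀ᵐ x ∂(volume.restrict A), HasDerivAt G (f x) x :=
    ae_restrict_of_ae_restrict_of_subset hAs hd
  have h1 : volume (G '' (A \ D)) = 0 := by
    refine hN _ (sdiff_subset.trans hAs) ?_
    rw [ae_restrict_iff' hA, ae_iff] at hdA
    refine measure_mono_null ?_ hdA
    intro x hx
    simp only [mem_ofPred_eq, Classical.not_imp]
    exact ⟨hx.1, fun h => hx.2 h.differentiableAt⟩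
  have h2 : volume (G '' (A ∩ D)) ≤ ∫⁻ t in A ∩ D, ‖deriv G t‖ₑ := by
    have := addHaar_image_le_lintegral_abs_det_fderiv volume (hA.inter hD) (f := G)
      (f' := fun x => ContinuousLinearMap.smulRight (1 : ℝ →L[ℝ] ℝ) (deriv G x))
      (fun x hx => by
        have h : DifferentiableAt ℝ G x := hx.2
        exact h.hasDerivAt.hasFDerivAt.hasFDerivWithinAt)
    refine this.trans (le_of_eq ?_)
    refine lintegral_congr fun x => ?_
    rw [Real.enorm_eq_ofReal_abs]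
    congr 2
    simp
  have h3 : G '' A ⊆ G '' (A \ D) ∪ G '' (A ∩ D) := by
    rw [← image_union, sdiff_union_inter]
  calc volume (G '' A) ≤ volume (G '' (A \ D)) + volume (G '' (A ∩ D)) :=
        (measure_mono h3).trans (measure_union_le _ _)
    _ = volume (G '' (A ∩ D)) := by rw [h1, zero_add]
    _ ≤ ∫⁻ t in A ∩ D, ‖deriv G t‖ₑ := h2
    _ ≤ ∫⁻ t in A, ‖deriv G t‖ₑ := lintegral_mono_set inter_subset_left
    _ = ∫⁻ t in A, ‖f t‖ₑ := lintegral_congr_ae (hdA.mono fun x hx => by simp only [hx.deriv])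

theorem Rec.ofReal_le {G f : ℝ → ℝ} {c d : ℝ} (hG : ContinuousOn G (Icc c d))
    (hN : ∀ N ⊆ Icc c d, volume N = 0 → volume (G '' N) = 0)
    (hd : ∀ᵐ x ∂(volume.restrict (Icc c d)), HasDerivAt G (f x) x)
    {u v : ℝ} (hcu : c ≤ u) (huv : u ≤ v) (hvd : v ≤ d) :
    ENNReal.ofReal (G v - G u) ≤ ∫⁻ t in Icc u v ∩ Rec G u, ‖f t‖ₑ := by
  rcases le_total (G v) (G u) with hle | hle
  · rw [ENNReal.ofReal_of_nonpos (by linarith)]; exact bot_le
  · have hG' := hG.mono (Icc_subset_Icc hcu hvd)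
    rw [← Real.volume_Icc]
    refine (measure_mono (Rec.image huv hG')).trans ?_
    exact volume_image_le hN hd (Rec.isClosed hG').measurableSet
      (inter_subset_left.trans (Icc_subset_Icc hcu hvd))

/-- the condition replacing membership in `ACG_*` -/
def WC (G f : ℝ → ℝ) (c d : ℝ) : Prop :=
  (∀ᵐ x ∂(volume.restrict (Icc c d)), HasDerivAt G (f x) x) ∧
  ∀ u v : ℚ, c ≤ u → (u : ℝ) < v → v ≤ d →
    ENNReal.ofReal (G v - G u) ≤ ∫⁻ t in Icc (u : ℝ) v ∩ Rec G u, ‖f t‖ₑ ∧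
    ENNReal.ofReal (G u - G v) ≤ ∫⁻ t in Icc (u : ℝ) v ∩ Rec (fun x => -G x) u, ‖f t‖ₑ

/-- functions in `ACG_*` map null sets to null sets -/
theorem null_of_cover {G : ℝ → ℝ} {c d : ℝ} {K : ℕ → Set ℝ} (hK : Icc c d ⊆ ⋃ n, K n)
    (h : ∀ n, ACon G (K n)) : ∀ N ⊆ Icc c d, volume N = 0 → volume (G '' N) = 0 := by
  intro N hN h0
  have hsub : G '' N ⊆ ⋃ n, G '' (N ∩ K n) := by
    rintro _ ⟨x, hx, rfl⟩
    obtain ⟨n, hn⟩ := mem_iUnion.mp (hK (hN hx))
    exact mem_iUnion.mpr ⟨n, x, ⟨hx, hn⟩, rfl⟩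
  refine measure_mono_null hsub (measure_iUnion_null fun n => ?_)
  refine (h n).null inter_subset_right (measure_mono_null inter_subset_left h0)
    (A := c - 1) (B := d + 1) ?_
  intro x hx
  have := hN hx.1
  exact ⟨by linarith [this.1], by linarith [this.2]⟩

theorem ACon.neg {G : ℝ → ℝ} {K : Set ℝ} (h : ACon G K) : ACon (fun x => -G x) K :=
  ACgen.of_le h fun c _ d _ _ => by
    rw [← abs_neg]
    exact le_of_eq (by congr 1; ring)

theorem ACGStar.null {F : ℝ → ℝ} {c d : ℝ} (hF : ACGStar F c d) :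
    ∀ N ⊆ Icc c d, volume N = 0 → volume (F '' N) = 0 := by
  obtain ⟨hc, K, hK, hcov, hAC⟩ := hF
  exact null_of_cover hcov.subset fun n => (hAC n).aCon hc (hcov ▸ subset_iUnion K n)

theorem ACGStar.wc {F f : ℝ → ℝ} {c d : ℝ} (hF : ACGStar F c d)
    (hd : ∀ᵐ x ∂(volume.restrict (Icc c d)), HasDerivAt F (f x) x) : WC F f c d := by
  have hN := hF.null
  have hN' : ∀ N ⊆ Icc c d, volume N = 0 → volume ((fun x => -F x) '' N) = 0 := by
    obtain ⟨hc, K, hK, hcov, hAC⟩ := hF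
    exact null_of_cover hcov.subset fun n => ((hAC n).aCon hc (hcov ▸ subset_iUnion K n)).neg
  refine ⟨hd, fun u v hcu huv hvd => ⟨Rec.ofReal_le hF.1 hN hd hcu huv.le hvd, ?_⟩⟩
  have := Rec.ofReal_le (G := fun x => -F x) (f := fun x => -f x) hF.1.fun_neg hN'
    (hd.mono fun x hx => hx.fun_neg) hcu huv.le hvd
  simp only [enorm_neg] at this
  rwa [show -F v - -F u = F u - F v by ring] at this

end Q209.DJ
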