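import Pool.Agent.Q209.DJ.Glue

set_option autoImplicit false

/-! The space of measurable functions modulo equality almost everywhere, with the topology of
convergence in measure. -/

namespace Q209.DJ

open Set MeasureTheory Filter Topology
open scoped ENNReal

/-- real-valued measurable functions on `[a, b]` modulo equality almost everywhere -/
def MeasFun (a b : ℝ) : Type := ℝ →ₘ[volume.restrict (Icc a b)] ℝ

/-- the representative of a class -/
noncomputable def MeasFun.rep {a b : ℝ} (f : MeasFun a b) : ℝ → ℝ :=
  (show ℝ →ₘ[volume.restrict (Icc a b)] ℝ from f)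

theorem MeasFun.measurable_rep {a b : ℝ} (f : MeasFun a b) : Measurable f.rep :=
  AEEqFun.measurable _

theorem integrable_arctan {a b : ℝ} {f : ℝ → ℝ}
    (hf : AEStronglyMeasurable f (volume.restrict (Icc a b))) :
    Integrable (fun x => Real.arctan (f x)) (volume.restrict (Icc a b)) := by
  refine Integrable.of_bound (C := Real.pi / 2)
    (Real.continuous_arctan.comp_aestronglyMeasurable hf) (ae_of_all _ fun x => ?_)
  rw [Real.norm_eq_abs, abs_le]
  exact ⟨(Real.neg_pi_div_two_lt_arctan _).le, (Real.arctan_lt_pi_div_two _).le⟩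

/-- the class of `arctan f` in `L¹([a, b])` -/
noncomputable def MeasFun.toL1 {a b : ℝ} (f : MeasFun a b) :
    Lp ℝ 1 (volume.restrict (Icc a b)) :=
  (integrable_arctan f.measurable_rep.aestronglyMeasurable).toL1 (fun x => Real.arctan (f.rep x))

/-- the topology of convergence in measure, given by the metric `∫ |arctan f - arctan g|` -/
noncomputable instance (a b : ℝ) : TopologicalSpace (MeasFun a b) :=
  TopologicalSpace.induced MeasFun.toL1 inferInstance

theorem isInducing_toL1 (a b : ℝ) : IsInducing (MeasFun.toL1 (a := a) (b := b)) := ⟨rfl⟩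

instance (a b : ℝ) : SecondCountableTopology (MeasFun a b) := by
  have : Fact ((1 : ℝ≥0∞) ≠ ⊤) := ⟨ENNReal.one_ne_top⟩
  exact (isInducing_toL1 a b).secondCountableTopology

theorem tendsto_of_arctan {u : ℕ → ℝ} {x : ℝ}
    (h : Tendsto (fun n => Real.arctan (u n)) atTop (𝓝 (Real.arctan x))) :
    Tendsto u atTop (𝓝 x) := by
  have h1 : ContinuousAt Real.tan (Real.arctan x) :=
    Real.continuousAt_tan.mpr (Real.cos_arctan_pos x).ne'
  have h2 := h1.tendsto.comp h
  rw [Real.tan_arctan] at h2
  refine h2.congr fun n => ?_
  simp only [Function.comp, Real.tan_arctan]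

/-- convergence of sequences in `MeasFun a b` is convergence in measure -/
theorem tendsto_iff_tendstoInMeasure {a b : ℝ} (f : ℕ → MeasFun a b) (g : MeasFun a b) :
    Tendsto f atTop (𝓝 g) ↔
      TendstoInMeasure (volume.restrict (Icc a b)) (fun n => (f n).rep) atTop g.rep := by
  rw [(isInducing_toL1 a b).tendsto_nhds_iff]
  constructor
  · intro h
    have h1 := tendstoInMeasure_of_tendsto_Lp h
    have h2 : TendstoInMeasure (volume.restrict (Icc a b))
        (fun n x => Real.arctan ((f n).rep x)) atTop (fun x => Real.arctan (g.rep x)) :=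
      h1.congr' (Eventually.of_forall fun n => Integrable.coeFn_toL1
        (integrable_arctan (f n).measurable_rep.aestronglyMeasurable)) (Integrable.coeFn_toL1 _)
    rw [exists_seq_tendstoInMeasure_atTop_iff fun n =>
      (integrable_arctan (f n).measurable_rep.aestronglyMeasurable).aestronglyMeasurable] at h2
    rw [exists_seq_tendstoInMeasure_atTop_iff fun n => (f n).measurable_rep.aestronglyMeasurable]
    intro ns hns
    obtain ⟨ns', hns', hlim⟩ := h2 ns hns
    exact ⟨ns', hns', hlim.mono fun x hx => tendsto_of_arctan hx⟩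
  · intro h
    rw [exists_seq_tendstoInMeasure_atTop_iff fun n =>
      (f n).measurable_rep.aestronglyMeasurable] at h
    refine tendsto_of_subseq_tendsto fun ns hns => ?_
    obtain ⟨φ, hφ, hφm⟩ := strictMono_subseq_of_tendsto_atTop hns
    obtain ⟨ns', hns', hlim⟩ := h (ns ∘ φ) hφm
    refine ⟨fun n => φ (ns' n), ?_⟩
    rw [tendsto_iff_edist_tendsto_0]
    have key : ∀ n, edist ((MeasFun.toL1 ∘ f) (ns (φ (ns' n)))) g.toL1 =
        ∫⁻ x in Icc a b, ‖Real.arctan ((f (ns (φ (ns' n)))).rep x) - Real.arctan (g.rep x)‖ₑ := by
      intro n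
      simp only [Function.comp, MeasFun.toL1]
      rw [Integrable.edist_toL1_toL1]
      simp only [edist_eq_enorm_sub]
    simp_rw [key]
    have hdom := tendsto_lintegral_of_dominated_convergence
      (μ := volume.restrict (Icc a b))
      (F := fun n x => ‖Real.arctan ((f (ns (φ (ns' n)))).rep x) - Real.arctan (g.rep x)‖ₑ)
      (f := fun _ => 0) (fun _ => ENNReal.ofReal Real.pi)
      (fun n => ((Real.measurable_arctan.comp (f _).measurable_rep).sub
        (Real.measurable_arctan.comp g.measurable_rep)).enorm)
      (fun n => ae_of_all _ fun x => ?_) ?_ ?_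
    · simpa using hdom
    · beta_reduce
      rw [Real.enorm_eq_ofReal_abs]
      refine ENNReal.ofReal_le_ofReal ?_
      rw [abs_le]
      have h1 := Real.neg_pi_div_two_lt_arctan ((f (ns (φ (ns' n)))).rep x)
      have h2 := Real.arctan_lt_pi_div_two ((f (ns (φ (ns' n)))).rep x)
      have h3 := Real.neg_pi_div_two_lt_arctan (g.rep x)
      have h4 := Real.arctan_lt_pi_div_two (g.rep x)
      constructor <;> linarith
    · simp [ENNReal.mul_eq_top]
    · filter_upwards [hlim] with x hx
      have h1 : Tendsto (fun n => Real.arctan ((f (ns (φ (ns' n)))).rep x) -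
          Real.arctan (g.rep x)) atTop (𝓝 0) := by
        have := (Real.continuous_arctan.tendsto _).comp hx
        have := this.sub_const (Real.arctan (g.rep x))
        rwa [sub_self] at this
      have := (continuous_enorm.tendsto (0 : ℝ)).comp h1
      rw [enorm_zero] at this
      exact this

end Q209.DJ
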