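import Pool.Agent.Q209.DJ.Rec

set_option autoImplicit false

/-! Uniqueness. -/

namespace Q209.DJ

open Set MeasureTheory Filter Topology
open scoped ENNReal

theorem baire_portion {Q : Set ℝ} (hQ : IsClosed Q) (hne : Q.Nonempty) {K : ℕ → Set ℝ}
    (hK : ∀ n, IsClosed (K n)) (hcov : Q ⊆ ⋃ n, K n) :
    ∃ n, ∃ z ∈ Q, ∃ ε > 0, Q ∩ Ioo (z - ε) (z + ε) ⊆ K n := by
  have : CompleteSpace Q := hQ.completeSpace_coe
  have : Nonempty Q := hne.to_subtype
  obtain ⟨n, z, hz⟩ := nonempty_interior_of_iUnion_of_closed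
    (f := fun n => {x : Q | (x : ℝ) ∈ K n}) (fun n => (hK n).preimage continuous_subtype_val) (by
      rw [eq_univ_iff_forall]
      intro x
      obtain ⟨n, hn⟩ := mem_iUnion.mp (hcov x.2)
      exact mem_iUnion.mpr ⟨n, hn⟩)
  obtain ⟨ε, hε, hball⟩ := Metric.mem_nhds_iff.mp (mem_interior_iff_mem_nhds.mp hz)
  refine ⟨n, z, z.2, ε, hε, fun x hx => ?_⟩
  have := @hball ⟨x, hx.1⟩ (by
    rw [Metric.mem_ball, Subtype.dist_eq, Real.dist_eq, abs_lt]
    constructor
    · linarith [hx.2.1]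
    · linarith [hx.2.2])
  exact this

/-- `AC` from an integrable bound -/
theorem aCon_of_lintegral {G : ℝ → ℝ} {S : Set ℝ} {w : ℝ → ℝ≥0∞} (hw : ∫⁻ t, w t ≠ ⊤)
    (h : ∀ x ∈ S, ∀ y ∈ S, x ≤ y → ENNReal.ofReal |G y - G x| ≤ ∫⁻ t in Icc x y, w t) :
    ACon G S := by
  intro ε hε
  obtain ⟨δ', hδ', hsmall⟩ := exists_pos_setLIntegral_lt_of_measure_lt hw
    (ENNReal.ofReal_pos.mpr hε).ne'
  obtain ⟨δ, hδ, hδδ⟩ : ∃ δ : ℝ, 0 < δ ∧ ENNReal.ofReal δ ≤ δ' := by
    rcases eq_or_ne δ' ⊤ with rfl | hne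
    · exact ⟨1, one_pos, le_top⟩
    · exact ⟨δ'.toReal, ENNReal.toReal_pos (ne_of_gt hδ') hne, (ENNReal.ofReal_toReal hne).le⟩
  refine ⟨δ, hδ, fun n c d hp hs => ?_⟩
  have hdisj : Pairwise (Function.onFun Disjoint fun i => Ioo (c i) (d i)) := by
    intro i j hij
    rw [Function.onFun, Set.disjoint_left]
    intro z hz hz'
    rcases hp.2 i j hij with h1 | h1
    · linarith [hz.2, hz'.1]
    · linarith [hz.1, hz'.2]
  have hle : ∀ i, c i ≤ d i := fun i => (hp.1 i).2.2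
  have h1 : volume (⋃ i, Ioo (c i) (d i)) < δ' := by
    refine lt_of_lt_of_le ?_ hδδ
    refine (measure_iUnion_le _).trans_lt ?_
    rw [tsum_fintype]
    have : ∑ i, volume (Ioo (c i) (d i)) = ENNReal.ofReal (∑ i, (d i - c i)) := by
      rw [ENNReal.ofReal_sum_of_nonneg fun i _ => sub_nonneg.mpr (hle i)]
      simp
    rw [this]
    exact (ENNReal.ofReal_lt_ofReal_iff hδ).mpr hs
  have h2 := hsmall _ h1
  rw [lintegral_iUnion (fun i => measurableSet_Ioo) hdisj, tsum_fintype] at h2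
  have h3 : ENNReal.ofReal (∑ i, |G (d i) - G (c i)|) ≤ ∑ i, ∫⁻ t in Ioo (c i) (d i), w t := by
    rw [ENNReal.ofReal_sum_of_nonneg fun i _ => abs_nonneg _]
    refine Finset.sum_le_sum fun i _ => ?_
    refine (h _ (hp.1 i).1 _ (hp.1 i).2.1 (hle i)).trans (le_of_eq ?_)
    rw [restrict_Ioo_eq_restrict_Icc]
  exact (ENNReal.ofReal_lt_ofReal_iff hε).mp (h3.trans_lt h2)

/-- almost every point of a set is an accumulation point -/
theorem ae_accPt (A : Set ℝ) : ∀ᵐ x : ℝ, x ∈ A → AccPt x (𝓟 A) := by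
  have hcount : {x ∈ A | 𝓝[A ∩ Ioi x] x = ⊥}.Countable := countable_setOfPred_isolated_right_within
  have h3 : ∀ᵐ x : ℝ, x ∉ {x ∈ A | 𝓝[A ∩ Ioi x] x = ⊥} :=
    measure_eq_zero_iff_ae_notMem.mp (hcount.measure_zero volume)
  filter_upwards [h3] with x hx hxA
  have hne : (𝓝[A ∩ Ioi x] x).NeBot := ⟨fun h => hx ⟨hxA, h⟩⟩
  rw [accPt_principal_iff_nhdsWithin]
  exact hne.mono (nhdsWithin_mono _ fun y hy => ⟨hy.1, ne_of_gt hy.2⟩)

/-- for a function which is monotone on a measurable set, the absolute value of the derivative is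
almost everywhere the derivative, and the integral is the measure of the image -/
theorem lintegral_mono_le {G : ℝ → ℝ} {A : Set ℝ} (hA : MeasurableSet A) (hm : MonotoneOn G A)
    (hd : ∀ᵐ x ∂(volume.restrict A), DifferentiableAt ℝ G x) :
    ∫⁻ t in A, ‖deriv G t‖ₑ ≤ volume (G '' A) := by
  let D : Set ℝ := {x | DifferentiableAt ℝ G x}
  have hD : MeasurableSet D := measurableSet_of_differentiableAt ℝ G
  have h1 : ∫⁻ t in A, ‖deriv G t‖ₑ = ∫⁻ t in A ∩ D, ‖deriv G t‖ₑ := by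
    refine setLIntegral_congr ?_
    rw [ae_restrict_iff' hA] at hd
    filter_upwards [hd] with x hx
    apply propext
    constructor
    · intro h; exact ⟨h, hx h⟩
    · intro h; exact h.1
  have h2 : ∫⁻ t in A ∩ D, ‖deriv G t‖ₑ = ∫⁻ t in A ∩ D, ENNReal.ofReal (deriv G t) := by
    refine lintegral_congr_ae ?_
    rw [Filter.EventuallyEq, ae_restrict_iff' (hA.inter hD)]
    filter_upwards [ae_accPt (A ∩ D)] with x hx hxA
    have hacc : AccPt x (𝓟 (A ∩ D)) := hx hxA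
    have hu : UniqueDiffWithinAt ℝ (A ∩ D) x := hacc.uniqueDiffWithinAt
    have hdx : DifferentiableAt ℝ G x := hxA.2
    have h4 : derivWithin G (A ∩ D) x = deriv G x := hdx.derivWithin hu
    have h5 : 0 ≤ deriv G x := by
      rw [← h4]; exact (hm.mono inter_subset_left).derivWithin_nonneg
    rw [Real.enorm_eq_ofReal h5]
  rw [h1, h2, lintegral_deriv_eq_volume_image_of_monotoneOn (hA.inter hD)
    (fun x hx => (show DifferentiableAt ℝ G x from hx.2).hasDerivAt.hasDerivWithinAt)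
    (hm.mono inter_subset_left)]
  exact measure_mono (image_mono inter_subset_left)

/-- the derivative is integrable over a set on which the function has bounded variation -/
theorem lintegral_ne_top {F f : ℝ → ℝ} {c d : ℝ}
    (hd : ∀ᵐ x ∂(volume.restrict (Icc c d)), HasDerivAt F (f x) x) {S : Set ℝ} (hS : IsClosed S)
    (hne : S.Nonempty) (hSs : S ⊆ Icc c d)
    (hV : ∀ (n : ℕ) (c' d' : Fin n → ℝ), PrePartition S c' d' → ∑ i, |F (d' i) - F (c' i)| ≤ 1) :
    ∫⁻ t in S, ‖f t‖ₑ ≠ ⊤ := by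
  have hbv : BoundedVariationOn F S := by
    have : eVariationOn F S ≤ 1 := by
      refine iSup_le ?_
      rintro ⟨n, u, hu, hus⟩
      simp only []
      rw [Finset.sum_range]
      have h1 := hV n (fun i => u i) (fun i => u (i + 1)) ⟨fun i => ⟨hus _, hus _,
        hu (Nat.le_succ _)⟩, fun i j hij => by
          rcases lt_or_gt_of_ne hij with h | h
          · exact Or.inl (hu (Nat.succ_le_of_lt h))
          · exact Or.inr (hu (Nat.succ_le_of_lt h))⟩
      have h2 : ∑ i : Fin n, edist (F (u (i + 1))) (F (u i)) =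
          ENNReal.ofReal (∑ i : Fin n, |F (u (i + 1)) - F (u i)|) := by
        rw [ENNReal.ofReal_sum_of_nonneg fun i _ => abs_nonneg _]
        refine Finset.sum_congr rfl fun i _ => ?_
        rw [edist_dist, Real.dist_eq]
      rw [h2]
      calc _ ≤ ENNReal.ofReal 1 := ENNReal.ofReal_le_ofReal h1
        _ = 1 := ENNReal.ofReal_one
    exact ne_top_of_le_ne_top ENNReal.one_ne_top this
  obtain ⟨p, q, hp, hq, hpq⟩ := hbv.locallyBoundedVariationOn.exists_monotoneOn_sub_monotoneOn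
  have hb1 : BddBelow S := ⟨c, fun x hx => (hSs hx).1⟩
  have hb2 : BddAbove S := ⟨d, fun x hx => (hSs hx).2⟩
  have hm1 : sInf S ∈ S := hS.csInf_mem hne hb1
  have hm2 : sSup S ∈ S := hS.csSup_mem hne hb2
  have hext : ∀ g : ℝ → ℝ, MonotoneOn g S → ∃ P : ℝ → ℝ, Monotone P ∧ EqOn g P S := by
    intro g hg
    refine hg.exists_monotone_extension ⟨g (sInf S), ?_⟩ ⟨g (sSup S), ?_⟩
    · rintro _ ⟨x, hx, rfl⟩
      exact hg hm1 hx (csInf_le hb1 hx)
    · rintro _ ⟨x, hx, rfl⟩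
      exact hg hx hm2 (le_csSup hb2 hx)
  obtain ⟨P, hP, hPp⟩ := hext p hp
  obtain ⟨R, hR, hRq⟩ := hext q hq
  have hae : ∀ᵐ x ∂(volume.restrict S), f x = deriv P x - deriv R x := by
    have h1 : ∀ᵐ x ∂(volume.restrict S), HasDerivAt F (f x) x :=
      ae_restrict_of_ae_restrict_of_subset hSs hd
    rw [ae_restrict_iff' hS.measurableSet] at h1 ⊢
    filter_upwards [h1, ae_accPt S, hP.ae_differentiableAt, hR.ae_differentiableAt]
      with x hx1 hx2 hx3 hx4 hxS
    have hu : UniqueDiffWithinAt ℝ S x := (hx2 hxS).uniqueDiffWithinAt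
    have e1 : HasDerivWithinAt F (f x) S x := (hx1 hxS).hasDerivWithinAt
    have e2 : HasDerivWithinAt (fun y => P y - R y) (deriv P x - deriv R x) S x :=
      (hx3.hasDerivAt.sub hx4.hasDerivAt).hasDerivWithinAt
    have e3 : HasDerivWithinAt F (deriv P x - deriv R x) S x := by
      refine e2.congr (fun y hy => ?_) ?_
      · rw [hpq, Pi.sub_apply, hPp hy, hRq hy]
      · rw [hpq, Pi.sub_apply, hPp hxS, hRq hxS]
    exact hu.eq_deriv _ e1 e3
  have hint : ∀ P : ℝ → ℝ, Monotone P → ∫⁻ t in S, ‖deriv P t‖ₑ < ⊤ := by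
    intro P hP
    have h1 : IntervalIntegrable (deriv P) volume (sInf S) (sSup S) :=
      (hP.monotoneOn _).intervalIntegrable_deriv
    have h2 : IntegrableOn (deriv P) (Icc (sInf S) (sSup S)) :=
      (intervalIntegrable_iff_integrableOn_Icc_of_le (csInf_le hb1 hm2)).mp h1
    refine lt_of_le_of_lt (lintegral_mono_set ?_) h2.2
    exact fun x hx => ⟨csInf_le hb1 hx, le_csSup hb2 hx⟩
  have : ∫⁻ t in S, ‖f t‖ₑ ≤ ∫⁻ t in S, (‖deriv P t‖ₑ + ‖deriv R t‖ₑ) := by
    refine lintegral_mono_ae (hae.mono fun x hx => ?_)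
    rw [hx]
    exact enorm_sub_le
  refine ne_top_of_le_ne_top ?_ this
  rw [lintegral_add_left (measurable_deriv P).enorm]
  exact ENNReal.add_ne_top.mpr ⟨(hint P hP).ne, (hint R hR).ne⟩

end Q209.DJ
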